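import Mathlib

/-!
A discrete comparison argument for the Turan density of the complete 3-graphs.

Difference to the paper proof: the comparison starts at `435/1000`, where `5 a Q' (a) + Q (a) > 1`.
-/

set_option autoImplicit false

namespace Pool.Agent.H708.TD

/-- The comparison function. -/
noncomputable def Q (a : ℝ) : ℝ := (-110 + 650 * a + 4365 * a ^ 2 - 465 * a ^ 3) / 10000

/-- Its derivative. -/
noncomputable def Qd (a : ℝ) : ℝ := (650 + 8730 * a - 1395 * a ^ 2) / 10000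

theorem P_ge_1 {a : ℝ} (h1 : 87/200 ≤ a) (h2 : a ≤ 41/40) :
    6 / 1000 ≤ 5 / 6 * (a * Qd a) ^ 2 + 1 / 3 * (1 - Q a) * (a * Qd a) + 4 / 3 * (1 - Q a) * Q a - a ^ 2 := by
  have key : ∀ u v : ℝ, 0 ≤ u → 0 ≤ v → u = a - 87/200 → v = 41/40 - a →
      5 / 6 * (a * Qd a) ^ 2 + 1 / 3 * (1 - Q a) * (a * Qd a) + 4 / 3 * (1 - Q a) * Q a - a ^ 2 -
        6 / 1000 =
      (1520280909249458557/21596433224192000000) * u ^ 0 * v ^ 6 +
      (3273415023032230219/6478929967257600000) * u ^ 1 * v ^ 5 +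
      (147689846100187479/172771465793536000) * u ^ 2 * v ^ 4 +
      (9014959471500857/25915719869030400) * u ^ 3 * v ^ 3 +
      (96065032882853/20732575895224320) * u ^ 4 * v ^ 2 +
      (468736826564953/3455429315870720) * u ^ 5 * v ^ 1 +
      (290523387138839/4146515179044864) * u ^ 6 * v ^ 0 := by
    intro u v _ _ hu hv
    rw [hu, hv]
    unfold Q Qd
    ring
  have h3 := key (a - 87/200) (41/40 - a) (by linarith) (by linarith) rfl rfl
  have h4 : (0 : ℝ) ≤ a - 87/200 := by linarith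
  have h5 : (0 : ℝ) ≤ 41/40 - a := by linarith
  have h6 : ∀ u v : ℝ, 0 ≤ u → 0 ≤ v → (0 : ℝ) ≤
      (1520280909249458557/21596433224192000000) * u ^ 0 * v ^ 6 +
      (3273415023032230219/6478929967257600000) * u ^ 1 * v ^ 5 +
      (147689846100187479/172771465793536000) * u ^ 2 * v ^ 4 +
      (9014959471500857/25915719869030400) * u ^ 3 * v ^ 3 +
      (96065032882853/20732575895224320) * u ^ 4 * v ^ 2 +
      (468736826564953/3455429315870720) * u ^ 5 * v ^ 1 +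
      (290523387138839/4146515179044864) * u ^ 6 * v ^ 0 := by
    intro u v hu hv
    positivity
  have h7 := h6 _ _ h4 h5
  linarith
theorem P_ge_2 {a : ℝ} (h1 : 41/40 ≤ a) (h2 : a ≤ 3163/2000) :
    6 / 1000 ≤ 5 / 6 * (a * Qd a) ^ 2 + 1 / 3 * (1 - Q a) * (a * Qd a) + 4 / 3 * (1 - Q a) * Q a - a ^ 2 := by
  have key : ∀ u v : ℝ, 0 ≤ u → 0 ≤ v → u = a - 41/40 → v = 3163/2000 - a →
      5 / 6 * (a * Qd a) ^ 2 + 1 / 3 * (1 - Q a) * (a * Qd a) + 4 / 3 * (1 - Q a) * Q a - a ^ 2 -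
        6 / 1000 =
      (4539427924044359375/45622830683460254616) * u ^ 0 * v ^ 6 +
      (14878954160910998125/15207610227820084872) * u ^ 1 * v ^ 5 +
      (235790678308213043875/60830440911280339488) * u ^ 2 * v ^ 4 +
      (672642501563239919465/91245661366920509232) * u ^ 3 * v ^ 3 +
      (8060279988379836866279/1216608818225606789760) * u ^ 4 * v ^ 2 +
      (343949260409508118229677/152076102278200848720000) * u ^ 5 * v ^ 1 +
      (1009636323591476476665071/45622830683460254616000000) * u ^ 6 * v ^ 0 := by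
    intro u v _ _ hu hv
    rw [hu, hv]
    unfold Q Qd
    ring
  have h3 := key (a - 41/40) (3163/2000 - a) (by linarith) (by linarith) rfl rfl
  have h4 : (0 : ℝ) ≤ a - 41/40 := by linarith
  have h5 : (0 : ℝ) ≤ 3163/2000 - a := by linarith
  have h6 : ∀ u v : ℝ, 0 ≤ u → 0 ≤ v → (0 : ℝ) ≤
      (4539427924044359375/45622830683460254616) * u ^ 0 * v ^ 6 +
      (14878954160910998125/15207610227820084872) * u ^ 1 * v ^ 5 +
      (235790678308213043875/60830440911280339488) * u ^ 2 * v ^ 4 +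
      (672642501563239919465/91245661366920509232) * u ^ 3 * v ^ 3 +
      (8060279988379836866279/1216608818225606789760) * u ^ 4 * v ^ 2 +
      (343949260409508118229677/152076102278200848720000) * u ^ 5 * v ^ 1 +
      (1009636323591476476665071/45622830683460254616000000) * u ^ 6 * v ^ 0 := by
    intro u v hu hv
    positivity
  have h7 := h6 _ _ h4 h5
  linarith

theorem P_ge {a : ℝ} (h1 : 435 / 1000 ≤ a) (h2 : a ≤ 15815 / 10000) :
    6 / 1000 ≤ 5 / 6 * (a * Qd a) ^ 2 + 1 / 3 * (1 - Q a) * (a * Qd a) + 4 / 3 * (1 - Q a) * Q a - a ^ 2 := by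
  rcases le_total a (41 / 40) with h | h
  · exact P_ge_1 (by linarith) h
  · exact P_ge_2 h (by linarith)

theorem Q_le {a : ℝ} (h1 : 435 / 1000 ≤ a) (h2 : a ≤ 15815 / 10000) : Q a ≤ 9997 / 10000 := by
  unfold Q
  have h3 : 0 ≤ 15815 / 10000 - a := by linarith
  have h4 : 0 ≤ a - 435 / 1000 := by linarith
  nlinarith [mul_nonneg h3 h4, mul_nonneg (mul_nonneg h3 h4) h4, mul_nonneg (mul_nonneg h3 h4) h3]

theorem Q_nonneg {a : ℝ} (h1 : 435 / 1000 ≤ a) (h2 : a ≤ 15815 / 10000) : 0 ≤ Q a := by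
  unfold Q
  have h3 : 0 ≤ 15815 / 10000 - a := by linarith
  have h4 : 0 ≤ a - 435 / 1000 := by linarith
  nlinarith [mul_nonneg h3 h4, mul_nonneg (mul_nonneg h3 h4) h4, mul_nonneg (mul_nonneg h3 h4) h3]

theorem g_le {a : ℝ} (h1 : 435 / 1000 ≤ a) (h2 : a ≤ 15815 / 10000) : a * Qd a ≤ 18 / 10 := by
  unfold Qd
  have h3 : 0 ≤ 15815 / 10000 - a := by linarith
  have h4 : 0 ≤ a - 435 / 1000 := by linarith
  nlinarith [mul_nonneg h3 h4, mul_nonneg (mul_nonneg h3 h4) h4, mul_nonneg (mul_nonneg h3 h4) h3]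

theorem g_ge {a : ℝ} (h1 : 435 / 1000 ≤ a) (h2 : a ≤ 15815 / 10000) : 1 / 10 ≤ a * Qd a := by
  unfold Qd
  have h3 : 0 ≤ 15815 / 10000 - a := by linarith
  have h4 : 0 ≤ a - 435 / 1000 := by linarith
  nlinarith [mul_nonneg h3 h4, mul_nonneg (mul_nonneg h3 h4) h4, mul_nonneg (mul_nonneg h3 h4) h3]

theorem gQ_ge {a : ℝ} (h1 : 435 / 1000 ≤ a) (h2 : a ≤ 15815 / 10000) :
    1 + 5 / 1000 ≤ 5 * (a * Qd a) + Q a := by
  unfold Q Qd
  have h3 : 0 ≤ 15815 / 10000 - a := by linarith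
  have h4 : 0 ≤ a - 435 / 1000 := by linarith
  nlinarith [mul_nonneg h3 h4, mul_nonneg (mul_nonneg h3 h4) h4, mul_nonneg (mul_nonneg h3 h4) h3]

theorem Q_gt {a : ℝ} (h1 : 435 / 1000 ≤ a) (h2 : a ≤ 44 / 100) : a ^ 2 / 2 + 12 / 10000 ≤ Q a := by
  unfold Q
  have h3 : 0 ≤ 44 / 100 - a := by linarith
  have h4 : 0 ≤ a - 435 / 1000 := by linarith
  nlinarith [mul_nonneg h3 h4, mul_nonneg (mul_nonneg h3 h4) h4, mul_nonneg (mul_nonneg h3 h4) h3]

/-- Backward difference. -/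
theorem back_diff {a h j : ℝ} (hh : 0 < h) (h1 : h ≤ 1 / 100000) (ha : a = j * h)
    (ha0 : 435 / 1000 ≤ a) (ha1 : a ≤ 15815 / 10000) : a * Qd a - h ≤ j * (Q a - Q (a - h)) := by
  have hj : 0 < j := by
    by_contra hcon
    push Not at hcon
    have : j * h ≤ 0 := mul_nonpos_of_nonpos_of_nonneg hcon hh.le
    linarith
  have e1 : j * (Q a - Q (a - h)) =
      a * Qd a - a * h * ((4365 - 1395 * a) / 10000) - a * h ^ 2 * (465 / 10000) := by
    rw [ha]
    unfold Q Qd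
    ring
  rw [e1]
  have e2 : a * h * ((4365 - 1395 * a) / 10000) ≤ h * (7 / 10) := by
    have : a * ((4365 - 1395 * a) / 10000) ≤ 7 / 10 := by nlinarith [sq_nonneg a]
    nlinarith
  have e3 : a * h ^ 2 * (465 / 10000) ≤ h * (1 / 10) := by
    have : a * h ≤ 1 := by nlinarith
    nlinarith [mul_le_mul_of_nonneg_left this hh.le]
  linarith

/-- Forward difference. -/
theorem forw_diff {a h j : ℝ} (hh : 0 < h) (h1 : h ≤ 1 / 100000) (ha : a = j * h)
    (ha0 : 435 / 1000 ≤ a) (ha1 : a ≤ 15815 / 10000) :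
    a * Qd a ≤ (j + 1) * (Q (a + h) - Q a) ∧ Q a ≤ Q (a + h) := by
  have hj : 0 < j := by
    by_contra hcon
    push Not at hcon
    have : j * h ≤ 0 := mul_nonpos_of_nonpos_of_nonneg hcon hh.le
    linarith
  have e0 : Q (a + h) - Q a = h * (Qd a + h * ((4365 - 1395 * a) / 10000) - h ^ 2 * (465 / 10000)) := by
    unfold Q Qd
    ring
  have e1 : 0 ≤ h * ((4365 - 1395 * a) / 10000) - h ^ 2 * (465 / 10000) := by
    have : 0 ≤ (4365 - 1395 * a) / 10000 - h * (465 / 10000) := by nlinarith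
    nlinarith [mul_nonneg hh.le this]
  have hQd : 0 ≤ Qd a := by
    have := g_ge ha0 ha1
    by_contra hcon
    push Not at hcon
    have : a * Qd a ≤ 0 := mul_nonpos_of_nonneg_of_nonpos (by linarith) hcon.le
    linarith
  have e2 : h * Qd a ≤ Q (a + h) - Q a := by
    rw [e0]
    exact mul_le_mul_of_nonneg_left (by linarith) hh.le
  refine ⟨?_, by nlinarith [mul_nonneg hh.le hQd]⟩
  calc a * Qd a = j * (h * Qd a) := by rw [ha]; ring
    _ ≤ (j + 1) * (h * Qd a) := mul_le_mul_of_nonneg_right (by linarith) (mul_nonneg hh.le hQd)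
    _ ≤ (j + 1) * (Q (a + h) - Q a) := mul_le_mul_of_nonneg_left e2 (by linarith)

/-- The main inequality. -/
theorem real_step {a h j κ D b B y' E : ℝ} (hh : 0 < h) (h1 : h ≤ 1 / 100000) (ha : a = j * h)
    (ha0 : 435 / 1000 ≤ a) (ha1 : a ≤ 15815 / 10000) (κ0 : 0 ≤ κ) (κ1 : κ ≤ h / 100000)
    (hD : 0 ≤ D) (hE : E = 1 - j * κ - Q a - D) (hE0 : 0 ≤ E) (hb : a * Qd a - h + j * D ≤ b)
    (hb2 : b ≤ 2) (hB : a * Qd a - (j + 1) * D ≤ B) (hy' : Q a ≤ y') :
    a ^ 2 < E * (j / (j + 1)) * (4 / 3 * y' + 1 / 3 * B) + 5 / 6 * (b ^ 2 - j * κ * b) := by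
  have hP := P_ge ha0 ha1
  have hq0 := Q_nonneg ha0 ha1
  have hq1 := Q_le ha0 ha1
  have hg0 := g_ge ha0 ha1
  have hg1 := g_le ha0 ha1
  have hgq := gQ_ge ha0 ha1
  generalize Q a = q at *
  generalize a * Qd a = g at *
  have hj : 43500 ≤ j := by
    by_contra hcon
    push Not at hcon
    have : j * h ≤ 43500 * h := mul_le_mul_of_nonneg_right hcon.le hh.le
    have h2 : j * h < 435 / 1000 := by nlinarith
    linarith
  have hjκ0 : 0 ≤ j * κ := mul_nonneg (by linarith) κ0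
  have hjκ1 : j * κ ≤ 16 / 1000000 := by
    have : j * κ ≤ j * (h / 100000) := mul_le_mul_of_nonneg_left κ1 (by linarith)
    have h3 : j * (h / 100000) = a / 100000 := by rw [ha]; ring
    linarith
  have hjp : 0 < j + 1 := by linarith
  obtain ⟨c, hc⟩ : ∃ c : ℝ, c = j / (j + 1) := ⟨_, rfl⟩
  have hcj : c * (j + 1) = j := by rw [hc]; field_simp
  have hc0 : 0 ≤ c := by rw [hc]; exact div_nonneg (by linarith) hjp.le
  have hc1 : 1 - c ≤ 23 / 1000000 := by
    have : (1 - c) * (j + 1) = 1 := by linear_combination -hcj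
    by_contra hcon
    push Not at hcon
    have h4 : 23 / 1000000 * (j + 1) < (1 - c) * (j + 1) := mul_lt_mul_of_pos_right hcon hjp
    linarith
  rw [← hc]
  have hE1 : E ≤ 1 := by linarith
  have hEc : 0 ≤ E * c := mul_nonneg hE0 hc0
  -- the first term
  have t1 : E * c * (4 / 3 * q + 1 / 3 * (g - (j + 1) * D)) ≤ E * c * (4 / 3 * y' + 1 / 3 * B) :=
    mul_le_mul_of_nonneg_left (by linarith) hEc
  have t2 : E * c * (4 / 3 * q + 1 / 3 * (g - (j + 1) * D)) =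
      E * (4 / 3 * q + g / 3) - (1 - c) * (E * (4 / 3 * q + g / 3)) - E * (j * D) / 3 := by
    linear_combination (-1 / 3 * E * D) * hcj
  have hG0 : 0 ≤ 4 / 3 * q + g / 3 := by linarith
  have hG2 : 4 / 3 * q + g / 3 ≤ 2 := by linarith
  have t3 : (1 - c) * (E * (4 / 3 * q + g / 3)) ≤ 46 / 1000000 := by
    have h5 : E * (4 / 3 * q + g / 3) ≤ 1 * 2 := mul_le_mul hE1 hG2 hG0 (by norm_num)
    have h6 : 0 ≤ E * (4 / 3 * q + g / 3) := mul_nonneg hE0 hG0
    calc (1 - c) * (E * (4 / 3 * q + g / 3)) ≤ 23 / 1000000 * (E * (4 / 3 * q + g / 3)) :=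
          mul_le_mul_of_nonneg_right hc1 h6
      _ ≤ 23 / 1000000 * (1 * 2) := mul_le_mul_of_nonneg_left h5 (by norm_num)
      _ = 46 / 1000000 := by norm_num
  have t4 : (1 - q) * (4 / 3 * q + g / 3) - 32 / 1000000 - 2 * D ≤ E * (4 / 3 * q + g / 3) := by
    rw [hE]
    have h5 : j * κ * (4 / 3 * q + g / 3) ≤ 16 / 1000000 * 2 :=
      mul_le_mul hjκ1 hG2 hG0 (by norm_num)
    have h6 : D * (4 / 3 * q + g / 3) ≤ D * 2 := mul_le_mul_of_nonneg_left hG2 hD
    linarith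
  have hjD : 0 ≤ j * D := mul_nonneg (by linarith) hD
  have t5 : E * (j * D) ≤ (1 - q) * (j * D) := mul_le_mul_of_nonneg_right (by linarith) hjD
  -- the second term
  have t6 : (g - h + j * D) ^ 2 ≤ b ^ 2 := pow_le_pow_left₀ (by linarith) hb 2
  have t7 : g ^ 2 - 2 * g * h + 2 * (g - h) * (j * D) ≤ (g - h + j * D) ^ 2 := by
    linarith [sq_nonneg h, sq_nonneg (j * D)]
  have t8 : j * κ * b ≤ 32 / 1000000 := by
    calc j * κ * b ≤ j * κ * 2 := mul_le_mul_of_nonneg_left hb2 hjκ0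
      _ ≤ 16 / 1000000 * 2 := mul_le_mul_of_nonneg_right hjκ1 (by norm_num)
      _ = 32 / 1000000 := by norm_num
  have t9 : g * h ≤ 18 / 1000000 := by
    calc g * h ≤ 18 / 10 * (1 / 100000) := mul_le_mul hg1 h1 hh.le (by norm_num)
      _ = 18 / 1000000 := by norm_num
  have t10 : 2 * D ≤ (5 / 3 * (g - h) - (1 - q) / 3) * (j * D) := by
    have h5 : 1 / 1000 ≤ 5 / 3 * (g - h) - (1 - q) / 3 := by linarith
    have h6 : 1 / 1000 * (j * D) ≤ (5 / 3 * (g - h) - (1 - q) / 3) * (j * D) :=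
      mul_le_mul_of_nonneg_right h5 hjD
    have h7 : 43500 * D ≤ j * D := mul_le_mul_of_nonneg_right hj hD
    linarith
  linarith [t1, t2, t3, t4, t5, t6, t7, t8, t9, t10, hP]

/-- Upper bound (forward). -/
theorem forward {h κ : ℝ} {J : ℕ} (h0 : 0 < h) (h1 : h ≤ 1 / 100000) (κ0 : 0 ≤ κ)
    (κ1 : κ ≤ h / 100000) (y b : ℕ → ℝ)
    (y1 : y 1 = 0) (y0 : ∀ j, 0 ≤ y j)
    (b0 : ∀ j, 0 ≤ b j) (b2 : ∀ j, 1 ≤ j → j ≤ J → b j ≤ 2 * y j)
    (hb : ∀ j : ℕ, 1 ≤ j → j < J → y (j + 1) ≤ y j + b (j + 1) / (j + 1))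
    (hc : ∀ j : ℕ, 1 ≤ j → j < J → (1 - j * κ - y j) * (j / (j + 1)) *
      (4 / 3 * y (j + 1) + 1 / 3 * b (j + 1)) + 5 / 6 * ((b j) ^ 2 - j * κ * b j) ≤ (j * h) ^ 2) :
    ∀ j : ℕ, 1 ≤ j → j ≤ J → (1 - κ) * y j ≤ j * (j - 1) / 2 * h ^ 2 := by
  have hκ : κ ≤ 1 / 2 := by linarith
  intro j hj
  induction j, hj using Nat.le_induction with
  | base =>
    intro _
    rw [y1]
    norm_num
  | succ j hj ih =>
    intro hjJ
    have hjJ' : j < J := by omega
    have hb1 := hb j hj hjJ'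
    have hb2 := b2 (j + 1) (by omega) hjJ
    have hj1 : (1 : ℝ) ≤ j := by exact_mod_cast hj
    have hjp : (0 : ℝ) < (j : ℝ) + 1 := by linarith
    have e1 : b (j + 1) / ((j : ℝ) + 1) * ((j : ℝ) + 1) = b (j + 1) := div_mul_cancel₀ _ hjp.ne'
    rcases Nat.eq_or_lt_of_le hj with h2 | h2
    · -- j = 1
      subst h2
      have hc1 := hc 1 le_rfl hjJ'
      have hb11 : b 1 = 0 := by
        have h3 := b2 1 le_rfl hjJ'.le
        have h4 := b0 1
        rw [y1] at h3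
        linarith
      rw [y1, hb11] at hc1
      rw [y1] at hb1
      norm_num at hc1 hb1 e1 hb2 ⊢
      have h5 : 2 * y 2 ≤ b 2 := by linarith
      have h6 : (1 - κ) * (1 / 2) * (2 * y 2) ≤ (1 - κ) * (1 / 2) * (4 / 3 * y 2 + 1 / 3 * b 2) :=
        mul_le_mul_of_nonneg_left (by linarith) (by linarith)
      linarith
    · have h3 := ih hjJ'.le
      have hj2 : (2 : ℝ) ≤ j := by exact_mod_cast h2
      have h4 : ((j : ℝ) - 1) * y (j + 1) ≤ ((j : ℝ) + 1) * y j := by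
        have h5 : y (j + 1) * ((j : ℝ) + 1) ≤ (y j + b (j + 1) / ((j : ℝ) + 1)) * ((j : ℝ) + 1) :=
          mul_le_mul_of_nonneg_right hb1 hjp.le
        rw [add_mul, e1] at h5
        linarith
      have h6 : ((j : ℝ) - 1) * ((1 - κ) * y (j + 1)) ≤
          ((j : ℝ) - 1) * (((j : ℝ) + 1) * j / 2 * h ^ 2) := by
        calc ((j : ℝ) - 1) * ((1 - κ) * y (j + 1)) = (1 - κ) * (((j : ℝ) - 1) * y (j + 1)) := by ring
          _ ≤ (1 - κ) * (((j : ℝ) + 1) * y j) := mul_le_mul_of_nonneg_left h4 (by linarith)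
          _ = ((j : ℝ) + 1) * ((1 - κ) * y j) := by ring
          _ ≤ ((j : ℝ) + 1) * (j * (j - 1) / 2 * h ^ 2) := mul_le_mul_of_nonneg_left h3 hjp.le
          _ = ((j : ℝ) - 1) * (((j : ℝ) + 1) * j / 2 * h ^ 2) := by ring
      have h7 := le_of_mul_le_mul_left h6 (by linarith)
      push_cast
      calc (1 - κ) * y (j + 1) ≤ ((j : ℝ) + 1) * j / 2 * h ^ 2 := h7
        _ = ((j : ℝ) + 1) * ((j : ℝ) + 1 - 1) / 2 * h ^ 2 := by ring

/-- Lower bound (backward). -/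
theorem backward {h κ : ℝ} {J : ℕ} (h0 : 0 < h) (h1 : h ≤ 1 / 100000) (κ0 : 0 ≤ κ)
    (κ1 : κ ≤ h / 100000) (y b : ℕ → ℝ) (yJ : y J = 1 - J * κ)
    (yle : ∀ j, 1 ≤ j → j ≤ J → y j ≤ 1 - j * κ)
    (b0 : ∀ j, 0 ≤ b j) (b2 : ∀ j, 1 ≤ j → j ≤ J → b j ≤ 2 * y j)
    (hb : ∀ j : ℕ, 1 ≤ j → j < J → y (j + 1) ≤ y j + b (j + 1) / (j + 1))
    (hc : ∀ j : ℕ, 1 ≤ j → j < J → (1 - j * κ - y j) * (j / (j + 1)) *
      (4 / 3 * y (j + 1) + 1 / 3 * b (j + 1)) + 5 / 6 * ((b j) ^ 2 - j * κ * b j) ≤ (j * h) ^ 2)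
    (hcJ : 5 / 6 * ((b J) ^ 2 - J * κ * b J) ≤ (J * h) ^ 2)
    (hJa : (J : ℝ) * h ≤ 15815 / 10000) :
    ∀ k j : ℕ, j + k = J → 435 / 1000 ≤ (j : ℝ) * h → Q (j * h) ≤ y j := by
  intro k
  induction k using Nat.strong_induction_on with
  | _ k ih =>
    intro j hjk hja
    rcases Nat.eq_zero_or_pos k with hk | hk
    · have hjJ : j = J := by omega
      rw [hjJ, yJ]
      have h2 : Q ((J : ℝ) * h) ≤ 9997 / 10000 := Q_le (by rw [← hjJ]; exact hja) hJa
      have h3 : (J : ℝ) * κ ≤ J * (h / 100000) := mul_le_mul_of_nonneg_left κ1 (Nat.cast_nonneg J)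
      linarith
    · by_contra hcon
      push Not at hcon
      have hjJ : j < J := by omega
      have hj1 : 1 ≤ j := by
        rcases Nat.eq_zero_or_pos j with h | h
        · rw [h, Nat.cast_zero, zero_mul] at hja
          norm_num at hja
        · exact h
      have hcast : (((j + 1 : ℕ)) : ℝ) = (j : ℝ) + 1 := by push_cast; ring
      have ha : ((j : ℝ) + 1) * h = ((j : ℝ) + 1) * h := rfl
      have ha0 : 435 / 1000 ≤ ((j : ℝ) + 1) * h := by linarith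
      have hle : ((j : ℝ) + 1) ≤ J := by exact_mod_cast hjJ
      have ha1 : ((j : ℝ) + 1) * h ≤ 15815 / 10000 :=
        (mul_le_mul_of_nonneg_right hle h0.le).trans hJa
      have hi := ih (k - 1) (by omega) (j + 1) (by omega) (by rw [hcast]; exact ha0)
      rw [hcast] at hi
      have hyi := yle (j + 1) (by omega) hjJ
      rw [hcast] at hyi
      have hbi := b2 (j + 1) (by omega) hjJ
      have hjp : (0 : ℝ) < (j : ℝ) + 1 := by
        have : (0 : ℝ) ≤ j := Nat.cast_nonneg j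
        linarith
      have hjκ : 0 ≤ ((j : ℝ) + 1) * κ := mul_nonneg hjp.le κ0
      -- lower bound for b (j+1)
      have hbj := hb j hj1 hjJ
      have e1 : b (j + 1) / ((j : ℝ) + 1) * ((j : ℝ) + 1) = b (j + 1) := div_mul_cancel₀ _ hjp.ne'
      have hb3 : ((j : ℝ) + 1) * (y (j + 1) - y j) ≤ b (j + 1) := by
        have h5 : y (j + 1) * ((j : ℝ) + 1) ≤ (y j + b (j + 1) / ((j : ℝ) + 1)) * ((j : ℝ) + 1) :=
          mul_le_mul_of_nonneg_right hbj hjp.le
        rw [add_mul, e1] at h5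
        linarith
      have hback := back_diff h0 h1 ha ha0 ha1
      have hsub : ((j : ℝ) + 1) * h - h = j * h := by ring
      rw [hsub] at hback
      have hb4 : (((j : ℝ) + 1) * h) * Qd (((j : ℝ) + 1) * h) - h +
          ((j : ℝ) + 1) * (y (j + 1) - Q (((j : ℝ) + 1) * h)) ≤ b (j + 1) := by
        have h6 : ((j : ℝ) + 1) * y j ≤ ((j : ℝ) + 1) * Q (j * h) :=
          mul_le_mul_of_nonneg_left hcon.le hjp.le
        linarith
      rcases Nat.lt_or_ge (j + 1) J with hlt | hge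
      · -- j + 1 < J
        have hi2 := ih (k - 2) (by omega) (j + 2) (by omega) (by
          have : (((j + 2 : ℕ)) : ℝ) = (j : ℝ) + 1 + 1 := by push_cast; ring
          rw [this]
          linarith)
        have hcast2 : (((j + 2 : ℕ)) : ℝ) = (j : ℝ) + 1 + 1 := by push_cast; ring
        rw [hcast2] at hi2
        have hfw := forw_diff h0 h1 ha ha0 ha1
        have hadd : ((j : ℝ) + 1) * h + h = ((j : ℝ) + 1 + 1) * h := by ring
        rw [hadd] at hfw
        have hbj1 := hb (j + 1) (by omega) hlt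
        have hcj1 := hc (j + 1) (by omega) hlt
        rw [hcast] at hbj1 hcj1
        have hjp2 : (0 : ℝ) < (j : ℝ) + 1 + 1 := by linarith
        have e2 : b (j + 1 + 1) / ((j : ℝ) + 1 + 1) * ((j : ℝ) + 1 + 1) = b (j + 1 + 1) :=
          div_mul_cancel₀ _ hjp2.ne'
        have hb5 : ((j : ℝ) + 1 + 1) * (y (j + 1 + 1) - y (j + 1)) ≤ b (j + 1 + 1) := by
          have h5 : y (j + 1 + 1) * ((j : ℝ) + 1 + 1) ≤
              (y (j + 1) + b (j + 1 + 1) / ((j : ℝ) + 1 + 1)) * ((j : ℝ) + 1 + 1) :=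
            mul_le_mul_of_nonneg_right hbj1 hjp2.le
          rw [add_mul, e2] at h5
          linarith
        have hB : (((j : ℝ) + 1) * h) * Qd (((j : ℝ) + 1) * h) -
            (((j : ℝ) + 1) + 1) * (y (j + 1) - Q (((j : ℝ) + 1) * h)) ≤ b (j + 1 + 1) := by
          have h6 : ((j : ℝ) + 1 + 1) * Q (((j : ℝ) + 1 + 1) * h) ≤ ((j : ℝ) + 1 + 1) * y (j + 1 + 1) :=
            mul_le_mul_of_nonneg_left hi2 hjp2.le
          linarith [hfw.1]
        have hfin := real_step (E := 1 - ((j : ℝ) + 1) * κ - y (j + 1)) h0 h1 ha ha0 ha1 κ0 κ1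
          (sub_nonneg.mpr hi) (by ring) (by linarith) hb4 (by linarith) hB (hfw.2.trans hi2)
        exact absurd hcj1 (not_le.mpr hfin)
      · have hJ1 : j + 1 = J := by omega
        have hJc : (J : ℝ) = (j : ℝ) + 1 := by rw [← hJ1]; exact hcast
        have hyJ : y (j + 1) = 1 - ((j : ℝ) + 1) * κ := by rw [hJ1, yJ, hJc]
        rw [hJc, ← hJ1] at hcJ
        have hfin := real_step (E := 0) (y' := Q (((j : ℝ) + 1) * h)) h0 h1 ha ha0 ha1 κ0 κ1
          (sub_nonneg.mpr hi) (by rw [hyJ]; ring) le_rfl hb4 (by linarith) le_rfl le_rfl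
        rw [zero_mul, zero_mul, zero_add] at hfin
        exact absurd hcJ (not_le.mpr hfin)

theorem analytic {h κ : ℝ} {J : ℕ} (h0 : 0 < h) (h1 : h ≤ 1 / 100000) (κ0 : 0 ≤ κ)
    (κ1 : κ ≤ h / 100000) (hJ : 1 ≤ J) (y b : ℕ → ℝ)
    (y1 : y 1 = 0) (yJ : y J = 1 - J * κ) (y0 : ∀ j, 0 ≤ y j)
    (yle : ∀ j, 1 ≤ j → j ≤ J → y j ≤ 1 - j * κ)
    (b0 : ∀ j, 0 ≤ b j) (b2 : ∀ j, 1 ≤ j → j ≤ J → b j ≤ 2 * y j)
    (hb : ∀ j : ℕ, 1 ≤ j → j < J → y (j + 1) ≤ y j + b (j + 1) / (j + 1))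
    (hc : ∀ j : ℕ, 1 ≤ j → j < J → (1 - j * κ - y j) * (j / (j + 1)) *
      (4 / 3 * y (j + 1) + 1 / 3 * b (j + 1)) + 5 / 6 * ((b j) ^ 2 - j * κ * b j) ≤ (j * h) ^ 2)
    (hcJ : 5 / 6 * ((b J) ^ 2 - J * κ * b J) ≤ (J * h) ^ 2) :
    2501 / 1000 ≤ (J * h) ^ 2 := by
  by_contra hcon
  push Not at hcon
  have hJ0 : (0 : ℝ) ≤ (J : ℝ) * h := mul_nonneg (Nat.cast_nonneg J) h0.le
  have hJa : (J : ℝ) * h ≤ 15815 / 10000 := by
    by_contra h2
    push Not at h2
    nlinarith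
  have hfw := forward h0 h1 κ0 κ1 y b y1 y0 b0 b2 hb hc
  have hbw := backward h0 h1 κ0 κ1 y b yJ yle b0 b2 hb hc hcJ hJa
  have hJκ : (J : ℝ) * κ ≤ J * (h / 100000) := mul_le_mul_of_nonneg_left κ1 (Nat.cast_nonneg J)
  have hJκ0 : 0 ≤ (J : ℝ) * κ := mul_nonneg (Nat.cast_nonneg J) κ0
  rcases le_or_gt (44 / 100) ((J : ℝ) * h) with hbig | hsmall
  · obtain ⟨j, hj⟩ : ∃ j : ℕ, j = ⌈435 / 1000 / h⌉₊ := ⟨_, rfl⟩
    have hj1 : 435 / 1000 ≤ (j : ℝ) * h := by
      have h2 : 435 / 1000 / h ≤ (j : ℝ) := by rw [hj]; exact Nat.le_ceil _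
      rw [div_le_iff₀ h0] at h2
      exact h2
    have hj2 : (j : ℝ) * h < 44 / 100 := by
      have h2 : (j : ℝ) < 435 / 1000 / h + 1 := by
        rw [hj]
        exact Nat.ceil_lt_add_one (div_nonneg (by norm_num) h0.le)
      have h3 : (j : ℝ) * h < (435 / 1000 / h + 1) * h := mul_lt_mul_of_pos_right h2 h0
      have h4 : (435 / 1000 / h + 1) * h = 435 / 1000 + h := by
        rw [add_mul, div_mul_cancel₀ _ h0.ne', one_mul]
      linarith
    have hjJ : j ≤ J := by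
      by_contra h2
      push Not at h2
      have h3 : (J : ℝ) ≤ j := by exact_mod_cast h2.le
      have h4 : (J : ℝ) * h ≤ j * h := mul_le_mul_of_nonneg_right h3 h0.le
      linarith
    have hjpos : 1 ≤ j := by
      rcases Nat.eq_zero_or_pos j with h | h
      · rw [h, Nat.cast_zero, zero_mul] at hj1
        norm_num at hj1
      · exact h
    have h5 := hbw (J - j) j (by omega) hj1
    have h6 := Q_gt hj1 hj2.le
    have h7 := hfw j hjpos hjJ
    have h8 : (j : ℝ) * (j - 1) / 2 * h ^ 2 ≤ (j * h) ^ 2 / 2 := by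
      have : (0 : ℝ) ≤ (j : ℝ) * h ^ 2 := mul_nonneg (Nat.cast_nonneg j) (sq_nonneg h)
      nlinarith
    have h9 : κ * y j ≤ 1 / 100000 * 1 := by
      have h10 := yle j hjpos hjJ
      have h11 : 0 ≤ (j : ℝ) * κ := mul_nonneg (Nat.cast_nonneg j) κ0
      exact mul_le_mul (by linarith) (by linarith) (y0 j) (by norm_num)
    linarith
  · have h7 := hfw J hJ le_rfl
    have h8 : (J : ℝ) * (J - 1) / 2 * h ^ 2 ≤ (J * h) ^ 2 / 2 := by
      have : (0 : ℝ) ≤ (J : ℝ) * h ^ 2 := mul_nonneg (Nat.cast_nonneg J) (sq_nonneg h)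
      nlinarith
    have h9 : ((J : ℝ) * h) ^ 2 ≤ (44 / 100) ^ 2 := pow_le_pow_left₀ hJ0 hsmall.le 2
    rw [yJ] at h7
    have h10 : κ * (J * κ) ≤ κ * 1 := mul_le_mul_of_nonneg_left (by linarith) κ0
    have h11 : 0 ≤ κ * (J * κ) := mul_nonneg κ0 hJκ0
    nlinarith

end Pool.Agent.H708.TD
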