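import Pool.Agent.H708.TD.Defs

set_option autoImplicit false

/-!
Basic facts and the double counting between independent sets of consecutive sizes.
-/

open Finset

namespace Pool.Agent.H708.TD

variable {α : Type*} [Fintype α] [DecidableEq α] {H : Finset (Finset α)}

lemma mem_I {j : ℕ} {T : Finset α} : T ∈ I H j ↔ T.card = j ∧ Ind H T := by
  unfold I
  rw [mem_filter, mem_powersetCard]
  exact ⟨fun h => ⟨h.1.2, h.2⟩, fun h => ⟨⟨subset_univ _, h.1⟩, h.2⟩⟩

lemma mem_F {T : Finset α} {v : α} : v ∈ F H T ↔ v ∉ T ∧ Ind H (insert v T) := by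
  unfold F; simp

lemma mem_Bl {T : Finset α} {v : α} : v ∈ Bl H T ↔ v ∉ T ∧ ¬ Ind H (insert v T) := by
  unfold Bl; simp

lemma Ind.mono {S T : Finset α} (h : Ind H T) (hS : S ⊆ T) : Ind H S :=
  fun e he hes => h e he (hes.trans hS)

/-- the double counting -/
lemma sum_pairs {M : Type*} [AddCommMonoid M] (j : ℕ) (g : Finset α → α → M) :
    ∑ T ∈ I H j, ∑ v ∈ F H T, g T v = ∑ T ∈ I H (j + 1), ∑ v ∈ T, g (T.erase v) v := by
  rw [sum_sigma', sum_sigma']
  refine sum_bij' (fun p _ => ⟨insert p.2 p.1, p.2⟩) (fun p _ => ⟨p.1.erase p.2, p.2⟩) ?_ ?_ ?_ ?_ ?_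
  · rintro ⟨T, v⟩ hp
    rw [mem_sigma] at hp ⊢
    simp only at hp ⊢
    rw [mem_I, mem_F] at hp
    rw [mem_I]
    refine ⟨⟨?_, hp.2.2⟩, mem_insert_self _ _⟩
    rw [card_insert_of_notMem hp.2.1, hp.1.1]
  · rintro ⟨T, v⟩ hp
    rw [mem_sigma] at hp ⊢
    simp only at hp ⊢
    rw [mem_I] at hp
    rw [mem_I, mem_F]
    refine ⟨⟨?_, hp.1.2.mono (erase_subset _ _)⟩, notMem_erase _ _, ?_⟩
    · rw [card_erase_of_mem hp.2, hp.1.1]; rfl
    · rw [insert_erase hp.2]; exact hp.1.2
  · rintro ⟨T, v⟩ hp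
    rw [mem_sigma] at hp
    simp only at hp
    rw [mem_F] at hp
    simp only
    rw [erase_insert hp.2.1]
  · rintro ⟨T, v⟩ hp
    rw [mem_sigma] at hp
    simp only at hp
    simp only
    rw [insert_erase hp.2]
  · rintro ⟨T, v⟩ hp
    rw [mem_sigma] at hp
    simp only at hp
    rw [mem_F] at hp
    simp only
    rw [erase_insert hp.2.1]

lemma mem_Gr {T : Finset α} {u : α} {p : Finset α} :
    p ∈ Gr H T u ↔ p ⊆ T ∧ p.card = 2 ∧ insert u p ∈ H := by
  unfold Gr
  rw [mem_filter, mem_powersetCard, and_assoc]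

lemma mem_N {U : Finset α} {x v z : α} : z ∈ N H U x v ↔ z ∈ U ∧ ({x, v, z} : Finset α) ∈ H := by
  unfold N; simp

/-- a vertex outside the independent set `T` can be added iff it has no blocking pair -/
lemma ind_insert_iff (h3 : ∀ e ∈ H, e.card = 3) {T : Finset α} (hT : Ind H T) {u : α}
    (hu : u ∉ T) : Ind H (insert u T) ↔ Gr H T u = ∅ := by
  constructor
  · intro h
    rw [eq_empty_iff_forall_notMem]
    intro p hp
    rw [mem_Gr] at hp
    exact h _ hp.2.2 (insert_subset_insert _ hp.1)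
  · intro h e he hes
    by_cases hue : u ∈ e
    · have : e.erase u ∈ Gr H T u := by
        rw [mem_Gr]
        refine ⟨?_, ?_, ?_⟩
        · intro x hx
          rw [mem_erase] at hx
          rcases mem_insert.1 (hes hx.2) with h1 | h1
          · exact absurd h1 hx.1
          · exact h1
        · rw [card_erase_of_mem hue, h3 e he]
        · rw [insert_erase hue]; exact he
      rw [h] at this
      simp at this
    · apply hT e he
      intro x hx
      rcases mem_insert.1 (hes hx) with h1 | h1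
      · rw [h1] at hx; exact absurd hx hue
      · exact h1

lemma mem_F_iff (h3 : ∀ e ∈ H, e.card = 3) {T : Finset α} (hT : Ind H T) {u : α} :
    u ∈ F H T ↔ u ∉ T ∧ Gr H T u = ∅ := by
  rw [mem_F]
  constructor
  · rintro ⟨h1, h2⟩; exact ⟨h1, (ind_insert_iff h3 hT h1).1 h2⟩
  · rintro ⟨h1, h2⟩; exact ⟨h1, (ind_insert_iff h3 hT h1).2 h2⟩

lemma mem_Bl_iff (h3 : ∀ e ∈ H, e.card = 3) {T : Finset α} (hT : Ind H T) {u : α} :
    u ∈ Bl H T ↔ u ∉ T ∧ (Gr H T u).Nonempty := by
  rw [mem_Bl]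
  constructor
  · rintro ⟨h1, h2⟩
    exact ⟨h1, nonempty_iff_ne_empty.2 fun h => h2 ((ind_insert_iff h3 hT h1).2 h)⟩
  · rintro ⟨h1, h2⟩
    exact ⟨h1, fun h => nonempty_iff_ne_empty.1 h2 ((ind_insert_iff h3 hT h1).1 h)⟩

lemma Gr_erase {T : Finset α} {x u : α} :
    Gr H (T.erase x) u = (Gr H T u).filter (fun p => x ∉ p) := by
  ext p
  rw [mem_filter, mem_Gr, mem_Gr]
  constructor
  · rintro ⟨h1, h2, h3⟩
    exact ⟨⟨h1.trans (erase_subset _ _), h2, h3⟩, fun h => (mem_erase.1 (h1 h)).1 rfl⟩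
  · rintro ⟨⟨h1, h2, h3⟩, h4⟩
    refine ⟨fun y hy => mem_erase.2 ⟨?_, h1 hy⟩, h2, h3⟩
    rintro rfl
    exact h4 hy

lemma mem_F_erase (h3 : ∀ e ∈ H, e.card = 3) {T : Finset α} (hT : Ind H T) {x v : α}
    (hv : v ∉ T) : v ∈ F H (T.erase x) ↔ ∀ p ∈ Gr H T v, x ∈ p := by
  rw [mem_F_iff h3 (hT.mono (erase_subset _ _)), Gr_erase]
  constructor
  · rintro ⟨_, h⟩ p hp
    by_contra hx
    have : p ∈ (Gr H T v).filter (fun p => x ∉ p) := mem_filter.2 ⟨hp, hx⟩
    rw [h] at this
    simp at this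
  · intro h
    refine ⟨fun h' => hv (mem_of_mem_erase h'), ?_⟩
    rw [eq_empty_iff_forall_notMem]
    intro p hp
    rw [mem_filter] at hp
    exact hp.2 (h p hp.1)

lemma mem_B {T : Finset α} {x u : α} :
    u ∈ B H T x ↔ u ∉ T ∧ (Gr H T u).Nonempty ∧ ∀ p ∈ Gr H T u, x ∈ p := by
  unfold B; simp

lemma F_erase (h3 : ∀ e ∈ H, e.card = 3) {T : Finset α} (hT : Ind H T) {x : α} (hx : x ∈ T) :
    F H (T.erase x) = insert x (F H T ∪ B H T x) := by
  ext v
  rw [mem_insert, mem_union]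
  by_cases hvx : v = x
  · subst hvx
    refine ⟨fun _ => Or.inl rfl, fun _ => ?_⟩
    rw [mem_F, insert_erase hx]
    exact ⟨notMem_erase _ _, hT⟩
  · by_cases hv : v ∈ T
    · constructor
      · intro h
        rw [mem_F] at h
        exact absurd (mem_erase.2 ⟨hvx, hv⟩) h.1
      · rintro (h | h | h)
        · exact absurd h hvx
        · exact absurd hv (mem_F.1 h).1
        · exact absurd hv (mem_B.1 h).1
    · rw [mem_F_erase h3 hT hv, mem_F_iff h3 hT, mem_B]
      constructor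
      · intro h
        right
        rcases (Gr H T v).eq_empty_or_nonempty with h' | h'
        · exact Or.inl ⟨hv, h'⟩
        · exact Or.inr ⟨hv, h', h⟩
      · rintro (h | h | h)
        · exact absurd h hvx
        · intro p hp; rw [h.2] at hp; simp at hp
        · exact h.2.2

lemma card_F_erase (h3 : ∀ e ∈ H, e.card = 3) {T : Finset α} (hT : Ind H T) {x : α} (hx : x ∈ T) :
    (F H (T.erase x)).card = (F H T).card + 1 + (B H T x).card := by
  rw [F_erase h3 hT hx, card_insert_of_notMem, card_union_of_disjoint]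
  · ring
  · rw [disjoint_left]
    intro u h1 h2
    rw [mem_F_iff h3 hT] at h1
    rw [mem_B, h1.2] at h2
    simp at h2
  · rw [mem_union]
    rintro (h | h)
    · exact (mem_F.1 h).1 hx
    · exact (mem_B.1 h).1 hx

/-- the chain identity -/
lemma sum_F_sq (h3 : ∀ e ∈ H, e.card = 3) (j : ℕ) :
    ∑ T ∈ I H j, (F H T).card ^ 2 =
      ∑ T ∈ I H (j + 1), ∑ x ∈ T, ((F H T).card + 1 + (B H T x).card) := by
  have h1 : ∀ T ∈ I H j, (F H T).card ^ 2 = ∑ _v ∈ F H T, (F H T).card := by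
    intro T _
    rw [sum_const, smul_eq_mul, sq]
  rw [sum_congr rfl h1, sum_pairs j (fun T _ => (F H T).card)]
  apply sum_congr rfl
  intro T hT
  apply sum_congr rfl
  intro x hx
  exact card_F_erase h3 (mem_I.1 hT).2 hx

lemma sum_F (j : ℕ) : ∑ T ∈ I H j, (F H T).card = (j + 1) * (I H (j + 1)).card := by
  have h1 : ∀ T ∈ I H j, (F H T).card = ∑ _v ∈ F H T, 1 := by
    intro T _; simp
  rw [sum_congr rfl h1, sum_pairs j (fun _ _ => 1)]
  have h2 : ∀ T ∈ I H (j + 1), ∑ _v ∈ T, 1 = j + 1 := by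
    intro T hT
    rw [sum_const, smul_eq_mul, mul_one, (mem_I.1 hT).1]
  rw [sum_congr rfl h2, sum_const, smul_eq_mul, mul_comm]

/-- colours and blocking pairs -/
lemma B_eq (h3 : ∀ e ∈ H, e.card = 3) {T : Finset α} (hT : Ind H T) {x : α} (hx : x ∈ T) :
    B H T x = (F H (T.erase x)).filter (fun v => (N H (T.erase x) x v).Nonempty) := by
  ext v
  rw [mem_B, mem_filter]
  constructor
  · rintro ⟨h1, ⟨p, hp⟩, h4⟩
    refine ⟨(mem_F_erase h3 hT h1).2 h4, ?_⟩
    have hxp := h4 p hp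
    rw [mem_Gr] at hp
    obtain ⟨a, b, hab, hpab⟩ := card_eq_two.1 hp.2.1
    -- the other point of p
    have hz : ∃ z ∈ T.erase x, p = {x, z} := by
      rw [hpab] at hxp
      rw [mem_insert, mem_singleton] at hxp
      rcases hxp with rfl | rfl
      · refine ⟨b, mem_erase.2 ⟨hab.symm, hp.1 ?_⟩, hpab⟩
        rw [hpab]; simp
      · refine ⟨a, mem_erase.2 ⟨hab, hp.1 ?_⟩, ?_⟩
        · rw [hpab]; simp
        · rw [hpab, pair_comm]
    obtain ⟨z, hz, hpz⟩ := hz
    refine ⟨z, ?_⟩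
    rw [mem_N]
    refine ⟨hz, ?_⟩
    have := hp.2.2
    rw [hpz] at this
    have e : ({x, v, z} : Finset α) = insert v {x, z} := by
      ext y; simp only [mem_insert, mem_singleton]; tauto
    rw [e]; exact this
  · rintro ⟨h1, ⟨z, hz⟩⟩
    rw [mem_N] at hz
    have hc := h3 _ hz.2
    have hxz : x ≠ z := fun h => by
      rw [h] at hz; exact notMem_erase _ _ hz.1
    have hvx : v ≠ x := by
      rintro rfl
      have : ({v, v, z} : Finset α) = {v, z} := by simp
      rw [this, card_pair hxz] at hc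
      omega
    have hvz : v ≠ z := by
      rintro rfl
      have : ({x, v, v} : Finset α) = {x, v} := by simp
      rw [this, card_pair hxz] at hc
      omega
    have hv : v ∉ T := fun h => (mem_F.1 h1).1 (mem_erase.2 ⟨hvx, h⟩)
    refine ⟨hv, ⟨{x, z}, ?_⟩, (mem_F_erase h3 hT hv).1 h1⟩
    rw [mem_Gr]
    refine ⟨?_, card_pair hxz, ?_⟩
    · intro y hy
      rw [mem_insert, mem_singleton] at hy
      rcases hy with rfl | rfl
      · exact hx
      · exact mem_of_mem_erase hz.1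
    · have e : ({x, v, z} : Finset α) = insert v {x, z} := by
        ext y; simp only [mem_insert, mem_singleton]; tauto
      rw [← e]; exact hz.2

lemma N_self (h3 : ∀ e ∈ H, e.card = 3) (U : Finset α) (v : α) : N H U v v = ∅ := by
  rw [eq_empty_iff_forall_notMem]
  intro z hz
  rw [mem_N] at hz
  have hc := h3 _ hz.2
  have : ({v, v, z} : Finset α) = {v, z} := by simp
  rw [this] at hc
  have := card_le_two (a := v) (b := z)
  omega

lemma N_comm (U : Finset α) (x v : α) : N H U x v = N H U v x := by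
  ext z
  rw [mem_N, mem_N]
  have : ({x, v, z} : Finset α) = {v, x, z} := by
    ext y; simp only [mem_insert, mem_singleton]; tauto
  rw [this]

/-- squares of the numbers of swappable vertices count triangles and cherries -/
lemma sum_B_sq (h3 : ∀ e ∈ H, e.card = 3) (j : ℕ) :
    ∑ T ∈ I H (j + 1), ∑ x ∈ T, (B H T x).card ^ 2 =
      ∑ U ∈ I H j, ((Tri H U).card + (Ch H U).card) +
        ∑ T ∈ I H (j + 1), ∑ x ∈ T, (B H T x).card := by
  set X : Finset α → α → Finset α := fun U x =>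
    (F H U).filter (fun v => (N H U x v).Nonempty) with hX
  have e1 : ∀ k : ℕ, ∑ T ∈ I H (j + 1), ∑ x ∈ T, (B H T x).card ^ k =
      ∑ U ∈ I H j, ∑ x ∈ F H U, (X U x).card ^ k := by
    intro k
    rw [sum_pairs j (fun U x => (X U x).card ^ k)]
    apply sum_congr rfl
    intro T hT
    apply sum_congr rfl
    intro x hx
    rw [B_eq h3 (mem_I.1 hT).2 hx]
  have e2 := e1 1
  simp only [pow_one] at e2
  rw [e1 2, e2, ← sum_add_distrib]
  apply sum_congr rfl
  intro U _
  have hA : ∀ x ∈ F H U, (X U x).card ^ 2 =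
      ((F H U ×ˢ F H U).filter (fun q : α × α => (N H U x q.1).Nonempty ∧ (N H U x q.2).Nonempty ∧
        (N H U q.1 q.2).Nonempty)).card +
      ((F H U ×ˢ F H U).filter (fun q : α × α => (N H U x q.1).Nonempty ∧ (N H U x q.2).Nonempty ∧
        q.1 ≠ q.2 ∧ ¬ (N H U q.1 q.2).Nonempty)).card + (X U x).card := by
    intro x _
    have h1 : (X U x).card ^ 2 = (X U x ×ˢ X U x).card := by rw [card_product, sq]
    rw [h1]
    have h2 : X U x ×ˢ X U x = ((F H U ×ˢ F H U).filter (fun q : α × α =>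
          (N H U x q.1).Nonempty ∧ (N H U x q.2).Nonempty ∧ (N H U q.1 q.2).Nonempty)) ∪
        ((F H U ×ˢ F H U).filter (fun q : α × α => (N H U x q.1).Nonempty ∧
          (N H U x q.2).Nonempty ∧ q.1 ≠ q.2 ∧ ¬ (N H U q.1 q.2).Nonempty)) ∪
        (X U x).image (fun v => (v, v)) := by
      ext ⟨a, b⟩
      simp only [hX, mem_product, mem_filter, mem_union, mem_image, Prod.mk.injEq]
      constructor
      · rintro ⟨⟨ha, ha'⟩, hb, hb'⟩
        by_cases hab : a = b
        · right; exact ⟨a, ⟨ha, ha'⟩, rfl, hab⟩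
        · by_cases hn : (N H U a b).Nonempty
          · left; left; exact ⟨⟨ha, hb⟩, ha', hb', hn⟩
          · left; right; exact ⟨⟨ha, hb⟩, ha', hb', hab, hn⟩
      · rintro ((h | h) | ⟨c, ⟨hc, hc'⟩, rfl, rfl⟩)
        · exact ⟨⟨h.1.1, h.2.1⟩, h.1.2, h.2.2.1⟩
        · exact ⟨⟨h.1.1, h.2.1⟩, h.1.2, h.2.2.1⟩
        · exact ⟨⟨hc, hc'⟩, hc, hc'⟩
    rw [h2, card_union_of_disjoint, card_union_of_disjoint, card_image_of_injective]
    · intro a b h; exact (Prod.mk.inj h).1
    · rw [disjoint_left]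
      rintro ⟨a, b⟩ h1 h2
      rw [mem_filter] at h1 h2
      exact h2.2.2.2.2 h1.2.2.2
    · rw [disjoint_left]
      rintro ⟨a, b⟩ h1 h2
      rw [mem_image] at h2
      obtain ⟨c, _, hc⟩ := h2
      obtain ⟨rfl, rfl⟩ := Prod.mk.inj hc
      rw [mem_union, mem_filter, mem_filter] at h1
      rcases h1 with h1 | h1
      · have := h1.2.2.2
        simp only [N_self h3] at this
        simp at this
      · exact h1.2.2.2.1 rfl
  rw [sum_congr rfl hA, sum_add_distrib, sum_add_distrib]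
  congr 2
  · unfold Tri
    rw [card_filter, sum_product]
    apply sum_congr rfl
    intro x _
    rw [card_filter]
  · unfold Ch
    rw [card_filter, sum_product]
    apply sum_congr rfl
    intro x _
    rw [card_filter]

end Pool.Agent.H708.TD
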