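import Pool.Agent.H708.TD.Defs
set_option autoImplicit false
open Finset
namespace Pool.Agent.H708.TD
variable {α : Type*} [Fintype α] [DecidableEq α] {H : Finset (Finset α)}

/-- the pairs counted by `cc` -/
def ccS (T : Finset α) (G : Finset (Finset α)) : Finset (α × α) :=
  (T ×ˢ T).filter (fun q => (∀ p ∈ G, q.1 ∈ p ∨ q.2 ∈ p) ∧ (∃ p ∈ G, q.1 ∈ p ∧ q.2 ∉ p) ∧
    (∃ p ∈ G, q.2 ∈ p ∧ q.1 ∉ p))

theorem ch_map (h3 : ∀ e ∈ H, e.card = 3) {j : ℕ} {U : Finset α} {x v w : α} (hU : U ∈ I H j)
    (h : (x, v, w) ∈ Ch H U) :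
    insert v (insert w U) ∈ I H (j + 2) ∧ x ∈ univ \ insert v (insert w U) ∧
      (v, w) ∈ ccS (insert v (insert w U)) (Gr H (insert v (insert w U)) x) ∧
      v ∉ U ∧ w ∉ U ∧ v ≠ w := by
  simp only [I, mem_filter, mem_powersetCard, subset_univ, true_and] at hU
  obtain ⟨hUc, hUi⟩ := hU
  simp only [Ch, F, mem_filter, mem_product, mem_univ, true_and] at h
  obtain ⟨⟨⟨hxU, hxi⟩, ⟨hvU, hvi⟩, ⟨hwU, hwi⟩⟩, hxv, hxw, hvw, hN⟩ := h
  have hvT : v ∉ insert w U := by
    simp [hvw, hvU]
  have hTc : (insert v (insert w U)).card = j + 2 := by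
    rw [card_insert_of_notMem hvT, card_insert_of_notMem hwU, hUc]
  have hTi : Ind H (insert v (insert w U)) := by
    intro e he hsub
    by_cases h1 : v ∈ e
    · by_cases h2 : w ∈ e
      · have h4 := h3 e he
        have h5 : ((e.erase v).erase w).card = 1 := by
          rw [card_erase_of_mem (mem_erase.2 ⟨hvw.symm, h2⟩), card_erase_of_mem h1, h4]
        obtain ⟨z, hz⟩ := card_eq_one.1 h5
        have h6 : e = {v, w, z} := by
          rw [← insert_erase h1, ← insert_erase (mem_erase.2 ⟨hvw.symm, h2⟩ : w ∈ e.erase v), hz]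
        have hzm : z ∈ (e.erase v).erase w := by rw [hz]; exact mem_singleton_self z
        have hz1 : z ≠ w := ne_of_mem_erase hzm
        have hz2 : z ≠ v := ne_of_mem_erase (mem_of_mem_erase hzm)
        have hz3 : z ∈ e := mem_of_mem_erase (mem_of_mem_erase hzm)
        have hz4 := hsub hz3
        rw [mem_insert, mem_insert] at hz4
        have hzU : z ∈ U := (hz4.resolve_left hz2).resolve_left hz1
        apply hN
        refine ⟨z, ?_⟩
        simp only [N, mem_filter]
        exact ⟨hzU, h6 ▸ he⟩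
      · refine hvi e he fun y hy => ?_
        have := hsub hy
        rw [mem_insert, mem_insert] at this
        rcases this with h | h | h
        · rw [h]; exact mem_insert_self _ _
        · exact absurd (h ▸ hy) h2
        · exact mem_insert_of_mem h
    · refine hwi e he fun y hy => ?_
      have := hsub hy
      rw [mem_insert] at this
      rcases this with h | h
      · exact absurd (h ▸ hy) h1
      · exact h
  have hx1 : x ≠ v := by
    rintro rfl
    exact hN hxw
  have hx2 : x ≠ w := by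
    rintro rfl
    apply hN
    obtain ⟨z, hz⟩ := hxv
    refine ⟨z, ?_⟩
    simp only [N, mem_filter] at hz ⊢
    rw [insert_comm]
    exact hz
  have hxT : x ∉ insert v (insert w U) := by
    simp [hx1, hx2, hxU]
  refine ⟨?_, ?_, ?_, hvU, hwU, hvw⟩
  · simp only [I, mem_filter, mem_powersetCard, subset_univ, true_and]
    exact ⟨hTc, hTi⟩
  · simp only [mem_sdiff, mem_univ, true_and]
    exact hxT
  · simp only [ccS, mem_filter, mem_product]
    refine ⟨⟨mem_insert_self _ _, mem_insert_of_mem (mem_insert_self _ _)⟩, ?_, ?_, ?_⟩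
    · intro p hp
      simp only [Gr, mem_filter, mem_powersetCard] at hp
      obtain ⟨⟨hpT, hpc⟩, hpH⟩ := hp
      by_contra hcon
      push Not at hcon
      refine hxi _ hpH fun y hy => ?_
      rw [mem_insert] at hy ⊢
      rcases hy with h | h
      · exact Or.inl h
      · right
        have := hpT h
        rw [mem_insert, mem_insert] at this
        rcases this with h' | h' | h'
        · exact absurd (h' ▸ h) hcon.1
        · exact absurd (h' ▸ h) hcon.2
        · exact h'
    · obtain ⟨z, hz⟩ := hxv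
      simp only [N, mem_filter] at hz
      obtain ⟨hzU, hzH⟩ := hz
      have hvz : v ≠ z := fun h => hvU (h ▸ hzU)
      have hwz : w ≠ z := fun h => hwU (h ▸ hzU)
      refine ⟨{v, z}, ?_, by simp, by simp [hvw.symm, hwz]⟩
      simp only [Gr, mem_filter, mem_powersetCard]
      refine ⟨⟨?_, card_pair hvz⟩, hzH⟩
      intro y hy
      rw [mem_insert, mem_singleton] at hy
      rcases hy with h | h
      · rw [h]; exact mem_insert_self _ _
      · rw [h]; exact mem_insert_of_mem (mem_insert_of_mem hzU)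
    · obtain ⟨z, hz⟩ := hxw
      simp only [N, mem_filter] at hz
      obtain ⟨hzU, hzH⟩ := hz
      have hvz : v ≠ z := fun h => hvU (h ▸ hzU)
      have hwz : w ≠ z := fun h => hwU (h ▸ hzU)
      refine ⟨{w, z}, ?_, by simp, by simp [hvw, hvz]⟩
      simp only [Gr, mem_filter, mem_powersetCard]
      refine ⟨⟨?_, card_pair hwz⟩, hzH⟩
      intro y hy
      rw [mem_insert, mem_singleton] at hy
      rcases hy with h | h
      · rw [h]; exact mem_insert_of_mem (mem_insert_self _ _)
      · rw [h]; exact mem_insert_of_mem (mem_insert_of_mem hzU)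

theorem ch_le (h3 : ∀ e ∈ H, e.card = 3) (j : ℕ) :
    ∑ U ∈ I H j, (Ch H U).card ≤ ∑ T ∈ I H (j + 2), ∑ u ∈ univ \ T, cc T (Gr H T u) := by
  have e1 : ∑ U ∈ I H j, (Ch H U).card = ((I H j).sigma fun U => Ch H U).card :=
    (card_sigma _ _).symm
  have e2 : ∑ T ∈ I H (j + 2), ∑ u ∈ univ \ T, cc T (Gr H T u) =
      ((I H (j + 2)).sigma fun T => (univ \ T).sigma fun u => ccS T (Gr H T u)).card := by
    rw [card_sigma]
    refine sum_congr rfl fun T _ => ?_
    rw [card_sigma]
    rfl
  rw [e1, e2]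
  refine card_le_card_of_injOn (fun q => ⟨insert q.2.2.1 (insert q.2.2.2 q.1), q.2.1,
    (q.2.2.1, q.2.2.2)⟩) ?_ ?_
  · rintro ⟨U, x, v, w⟩ hq
    have hq' := mem_sigma.1 (mem_coe.1 hq)
    obtain ⟨h1, h2, h4, -⟩ := ch_map h3 hq'.1 hq'.2
    exact mem_coe.2 (mem_sigma.2 ⟨h1, mem_sigma.2 ⟨h2, h4⟩⟩)
  · rintro ⟨U, x, v, w⟩ hq ⟨U', x', v', w'⟩ hq' heq
    have g := mem_sigma.1 (mem_coe.1 hq)
    have g' := mem_sigma.1 (mem_coe.1 hq')
    obtain ⟨-, -, -, a1, a2, a3⟩ := ch_map h3 g.1 g.2
    obtain ⟨-, -, -, b1, b2, b3⟩ := ch_map h3 g'.1 g'.2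
    simp only [Sigma.mk.injEq, heq_eq_eq, Prod.mk.injEq] at heq
    obtain ⟨hT, rfl, rfl, rfl⟩ := heq
    have hUU : U = U' := by
      have k1 : ((insert v (insert w U)).erase v).erase w = U := by
        rw [erase_insert (by simp [a3, a1]), erase_insert a2]
      have k2 : ((insert v (insert w U')).erase v).erase w = U' := by
        rw [erase_insert (by simp [b3, b1]), erase_insert b2]
      rw [← k1, ← k2, hT]
    subst hUU
    rfl

end Pool.Agent.H708.TD
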