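import Pool.Agent.H708.TD.Level

set_option autoImplicit false

/-!
Averages over the independent sets of size `j`, and the inequalities between them.
-/

open Finset

namespace Pool.Agent.H708.TD

variable {α : Type*} [Fintype α] [DecidableEq α] (H : Finset (Finset α))

/-- average proportion of blocked vertices -/
noncomputable def avY (j : ℕ) : ℝ :=
  (∑ T ∈ I H j, ((Bl H T).card : ℝ)) / ((I H j).card * Fintype.card α)

/-- average of the proportions of swappable vertices -/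
noncomputable def avB (j : ℕ) : ℝ :=
  (∑ T ∈ I H j, ∑ x ∈ T, ((B H T x).card : ℝ)) / ((I H j).card * Fintype.card α)

variable {H}

lemma avY_nonneg (j : ℕ) : 0 ≤ avY H j := by unfold avY; positivity
lemma avB_nonneg (j : ℕ) : 0 ≤ avB H j := by unfold avB; positivity

lemma sumBl_eq {j : ℕ} (hn : 0 < Fintype.card α) (hj : 0 < (I H j).card) :
    ∑ T ∈ I H j, ((Bl H T).card : ℝ) = avY H j * ((I H j).card * Fintype.card α) := by
  unfold avY
  have h1 : (0 : ℝ) < Fintype.card α := by exact_mod_cast hn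
  have h2 : (0 : ℝ) < (I H j).card := by exact_mod_cast hj
  field_simp

lemma sumB_eq {j : ℕ} (hn : 0 < Fintype.card α) (hj : 0 < (I H j).card) :
    ∑ T ∈ I H j, ∑ x ∈ T, ((B H T x).card : ℝ) = avB H j * ((I H j).card * Fintype.card α) := by
  unfold avB
  have h1 : (0 : ℝ) < Fintype.card α := by exact_mod_cast hn
  have h2 : (0 : ℝ) < (I H j).card := by exact_mod_cast hj
  field_simp

lemma sumF_eq {j : ℕ} (hn : 0 < Fintype.card α) (hj : 0 < (I H j).card) :
    ∑ T ∈ I H j, ((F H T).card : ℝ) =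
      (I H j).card * (Fintype.card α * (1 - j * (1 / (Fintype.card α : ℝ)) - avY H j)) := by
  have h1 : (0 : ℝ) < Fintype.card α := by exact_mod_cast hn
  have h : ∀ T ∈ I H j, ((F H T).card : ℝ) = (Fintype.card α - j) - (Bl H T).card := by
    intro T hT
    have := card_F_Bl (H := H) T
    rw [(mem_I.1 hT).1] at this
    have h' : ((F H T).card : ℝ) + (Bl H T).card + j = Fintype.card α := by exact_mod_cast this
    linarith
  rw [sum_congr rfl h, sum_sub_distrib, sumBl_eq hn hj, sum_const, nsmul_eq_mul]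
  field_simp

/-- ratio of the numbers of independent sets -/
lemma ratio {j : ℕ} (hn : 0 < Fintype.card α) (hj : 0 < (I H j).card) :
    ((j : ℝ) + 1) * (I H (j + 1)).card =
      (I H j).card * (Fintype.card α * (1 - j * (1 / (Fintype.card α : ℝ)) - avY H j)) := by
  rw [← sumF_eq hn hj]
  exact_mod_cast (sum_F (H := H) j).symm

lemma avY_le {j : ℕ} (hn : 0 < Fintype.card α) (hj : 0 < (I H j).card) :
    avY H j ≤ 1 - j * (1 / (Fintype.card α : ℝ)) := by
  have h1 : (0 : ℝ) < Fintype.card α := by exact_mod_cast hn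
  have h2 : (0 : ℝ) < (I H j).card := by exact_mod_cast hj
  have h := ratio hn hj
  have h3 : 0 ≤ ((j : ℝ) + 1) * (I H (j + 1)).card := by positivity
  rw [h] at h3
  have h4 : 0 ≤ 1 - j * (1 / (Fintype.card α : ℝ)) - avY H j := by
    by_contra hcon
    push Not at hcon
    have : ((I H j).card : ℝ) * (Fintype.card α * (1 - j * (1 / (Fintype.card α : ℝ)) - avY H j))
        < 0 := by
      apply mul_neg_of_pos_of_neg h2
      exact mul_neg_of_pos_of_neg h1 hcon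
    linarith
  linarith

lemma bt_le (T : Finset α) {G : Finset (Finset α)} (hG : G ⊆ T.powersetCard 2) :
    bt T G ≤ 2 * (if G.Nonempty then 1 else 0) := by
  unfold bt
  split_ifs with h
  · obtain ⟨p, hp⟩ := h
    have h2 := (mem_powersetCard.1 (hG hp)).2
    calc _ ≤ p.card := by
          apply card_le_card
          intro x hx
          exact (mem_filter.1 hx).2 p hp
      _ = _ := by rw [h2]
  · simp

lemma avB_le (h3 : ∀ e ∈ H, e.card = 3) {j : ℕ} (hn : 0 < Fintype.card α)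
    (hj : 0 < (I H j).card) : avB H j ≤ 2 * avY H j := by
  unfold avB avY
  rw [← mul_div_assoc]
  apply div_le_div_of_nonneg_right _ (by positivity)
  rw [mul_sum]
  apply sum_le_sum
  intro T hT
  have hT' := (mem_I.1 hT).2
  have h1 : ∑ x ∈ T, (B H T x).card ≤ 2 * (Bl H T).card := by
    rw [sum_bt h3 hT', ← sum_blocked h3 hT', mul_sum]
    exact sum_le_sum fun u _ => bt_le T (filter_subset _ _)
  exact_mod_cast h1

/-- the chain inequality -/
lemma chain (h3 : ∀ e ∈ H, e.card = 3) {j : ℕ} (hn : 0 < Fintype.card α)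
    (hj : 0 < (I H j).card) (hj1 : 0 < (I H (j + 1)).card) :
    avY H (j + 1) ≤ avY H j + avB H (j + 1) / (j + 1) := by
  have h1 : (0 : ℝ) < Fintype.card α := by exact_mod_cast hn
  have hi : (0 : ℝ) < (I H j).card := by exact_mod_cast hj
  have hi1 : (0 : ℝ) < (I H (j + 1)).card := by exact_mod_cast hj1
  have hcs : (∑ T ∈ I H j, ((F H T).card : ℝ)) ^ 2 ≤
      (I H j).card * ∑ T ∈ I H j, ((F H T).card : ℝ) ^ 2 := sq_sum_le_card_mul_sum_sq
  have hsq : ∑ T ∈ I H j, ((F H T).card : ℝ) ^ 2 =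
      ∑ T ∈ I H (j + 1), ∑ x ∈ T, (((F H T).card : ℝ) + 1 + (B H T x).card) := by
    exact_mod_cast sum_F_sq h3 j
  have h2 : ∑ T ∈ I H (j + 1), ∑ x ∈ T, (((F H T).card : ℝ) + 1 + (B H T x).card) =
      ((j : ℝ) + 1) * (∑ T ∈ I H (j + 1), ((F H T).card : ℝ) + (I H (j + 1)).card)
        + ∑ T ∈ I H (j + 1), ∑ x ∈ T, ((B H T x).card : ℝ) := by
    have : ∀ T ∈ I H (j + 1), ∑ x ∈ T, (((F H T).card : ℝ) + 1 + (B H T x).card) =
        ((j : ℝ) + 1) * ((F H T).card + 1) + ∑ x ∈ T, ((B H T x).card : ℝ) := by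
      intro T hT
      rw [sum_add_distrib, sum_const, nsmul_eq_mul, (mem_I.1 hT).1]
      push_cast; ring
    rw [sum_congr rfl this, sum_add_distrib, ← mul_sum, sum_add_distrib, sum_const, nsmul_eq_mul,
      mul_one]
  rw [hsq, h2, sumB_eq hn hj1, sumF_eq hn hj1, sumF_eq hn hj] at hcs
  have hr := ratio hn hj
  rw [← hr] at hcs
  -- divide
  have hpos : 0 < ((j : ℝ) + 1) * (I H (j + 1)).card := by positivity
  set c : ℝ := (Fintype.card α : ℝ) with hc
  set i : ℝ := ((I H j).card : ℝ) with hii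
  set i1 : ℝ := ((I H (j + 1)).card : ℝ) with hii1
  have h4 : ((j : ℝ) + 1) * i1 ≤ i * ((i1 * (c * (1 - ((j + 1 : ℕ) : ℝ) * (1 / c) - avY H (j + 1)))
      + i1) / i1 + avB H (j + 1) * c / (j + 1)) := by
    have h5 : ((j : ℝ) + 1) * i1 * (((j : ℝ) + 1) * i1) ≤ (((j : ℝ) + 1) * i1) *
        (i * ((i1 * (c * (1 - ((j + 1 : ℕ) : ℝ) * (1 / c) - avY H (j + 1)))
      + i1) / i1 + avB H (j + 1) * c / (j + 1))) := by
      rw [← sq]
      refine hcs.trans (le_of_eq ?_)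
      field_simp
    exact le_of_mul_le_mul_left h5 hpos
  rw [hr] at h4
  have h6 := le_of_mul_le_mul_left h4 hi
  have h7 : (i1 * (c * (1 - ((j + 1 : ℕ) : ℝ) * (1 / c) - avY H (j + 1))) + i1) / i1
      = c * (1 - j * (1 / c) - avY H (j + 1)) := by
    push_cast
    field_simp
    ring
  rw [h7] at h6
  have h8 : c * (1 - j * (1 / c) - avY H j) ≤ c * ((1 - j * (1 / c) - avY H (j + 1))
      + avB H (j + 1) / (j + 1)) := by
    refine h6.trans (le_of_eq ?_)
    ring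
  have h9 := le_of_mul_le_mul_left h8 h1
  linarith

/-- the level inequality for the averages -/
lemma level_av (h3 : ∀ e ∈ H, e.card = 3) {D : ℕ}
    (hD : ∀ z, (H.filter (fun e => z ∈ e)).card ≤ D) {h : ℝ}
    (hDh : 2 * (D : ℝ) ≤ (h * Fintype.card α) ^ 2)
    {j : ℕ} (hj0 : 1 ≤ j) (hn : 0 < Fintype.card α) (hj : 0 < (I H j).card) :
    (1 - j * (1 / (Fintype.card α : ℝ)) - avY H j) * (j / (j + 1)) *
      (4 / 3 * avY H (j + 1) + 1 / 3 * avB H (j + 1))
      + 5 / 6 * ((avB H j) ^ 2 - j * (1 / (Fintype.card α : ℝ)) * avB H j) ≤ (j * h) ^ 2 := by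
  obtain ⟨k, rfl⟩ : ∃ k, j = k + 1 := ⟨j - 1, by omega⟩
  have hlev := level h3 hD k
  have hc : (0 : ℝ) < Fintype.card α := by exact_mod_cast hn
  have hi : (0 : ℝ) < (I H (k + 1)).card := by exact_mod_cast hj
  have hlev' : 5 * ∑ T ∈ I H (k + 1), ∑ x ∈ T, ((B H T x).card : ℝ) ^ 2
      + 8 * ∑ T ∈ I H (k + 2), ((Bl H T).card : ℝ)
      + 2 * ∑ T ∈ I H (k + 2), ∑ x ∈ T, ((B H T x).card : ℝ)
      ≤ 12 * D * ((k : ℝ) + 1) * (I H (k + 1)).card
        + 5 * ∑ T ∈ I H (k + 1), ∑ x ∈ T, ((B H T x).card : ℝ) := by exact_mod_cast hlev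
  -- Cauchy-Schwarz
  have hcs : (∑ T ∈ I H (k + 1), ∑ x ∈ T, ((B H T x).card : ℝ)) ^ 2 ≤
      ((k : ℝ) + 1) * (I H (k + 1)).card *
        ∑ T ∈ I H (k + 1), ∑ x ∈ T, ((B H T x).card : ℝ) ^ 2 := by
    rw [sum_sigma', sum_sigma']
    have := sq_sum_le_card_mul_sum_sq (s := (I H (k + 1)).sigma (fun T => T))
      (f := fun p => ((B H p.1 p.2).card : ℝ))
    refine this.trans (le_of_eq ?_)
    congr 1
    rw [card_sigma]
    have h1 : ∑ T ∈ I H (k + 1), T.card = ∑ _T ∈ I H (k + 1), (k + 1) :=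
      sum_congr rfl fun T hT => (mem_I.1 hT).1
    rw [h1, sum_const, smul_eq_mul]
    push_cast
    ring
  have hr := ratio (H := H) hn hj
  rw [show (k + 1 + 1) = k + 2 from rfl] at hr ⊢
  have hB1 : ∑ T ∈ I H (k + 2), ((Bl H T).card : ℝ) =
      avY H (k + 2) * ((I H (k + 2)).card * Fintype.card α) := by
    rcases Nat.eq_zero_or_pos (I H (k + 2)).card with h0 | h0
    · rw [h0]
      rw [card_eq_zero] at h0
      rw [h0]; simp
    · exact sumBl_eq hn h0
  have hB2 : ∑ T ∈ I H (k + 2), ∑ x ∈ T, ((B H T x).card : ℝ) =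
      avB H (k + 2) * ((I H (k + 2)).card * Fintype.card α) := by
    rcases Nat.eq_zero_or_pos (I H (k + 2)).card with h0 | h0
    · rw [h0]
      rw [card_eq_zero] at h0
      rw [h0]; simp
    · exact sumB_eq hn h0
  rw [hB1, hB2, sumB_eq hn hj] at hlev'
  rw [sumB_eq hn hj] at hcs
  set c : ℝ := (Fintype.card α : ℝ) with hcdef
  set i : ℝ := ((I H (k + 1)).card : ℝ) with hidef
  set i2 : ℝ := ((I H (k + 2)).card : ℝ) with hi2def
  set S2 : ℝ := ∑ T ∈ I H (k + 1), ∑ x ∈ T, ((B H T x).card : ℝ) ^ 2 with hS2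
  have hk : (0 : ℝ) < (k : ℝ) + 1 := by positivity
  have hk2 : (0 : ℝ) < (k : ℝ) + 2 := by positivity
  push_cast at hr ⊢
  have hr2 : i2 = i * (c * (1 - ((k : ℝ) + 1) * (1 / c) - avY H (k + 1))) / ((k : ℝ) + 2) := by
    rw [eq_div_iff hk2.ne', ← hr]; ring
  have hS2' : (avB H (k + 1)) ^ 2 * i * c ^ 2 / ((k : ℝ) + 1) ≤ S2 := by
    rw [div_le_iff₀ hk]
    have h1 : i * ((avB H (k + 1)) ^ 2 * i * c ^ 2) ≤ i * (S2 * ((k : ℝ) + 1)) := by
      nlinarith [hcs]
    exact le_of_mul_le_mul_left h1 hi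
  -- main
  have h1 : 5 * ((avB H (k + 1)) ^ 2 * i * c ^ 2 / ((k : ℝ) + 1))
      + (8 * avY H (k + 2) + 2 * avB H (k + 2)) * (i2 * c)
      ≤ 12 * D * ((k : ℝ) + 1) * i + 5 * (avB H (k + 1) * (i * c)) := by
    nlinarith [hlev', hS2']
  have h2 : 12 * D * ((k : ℝ) + 1) * i ≤ 6 * (h * c) ^ 2 * ((k : ℝ) + 1) * i := by
    have : 12 * (D : ℝ) ≤ 6 * (h * c) ^ 2 := by linarith
    apply mul_le_mul_of_nonneg_right _ hi.le
    exact mul_le_mul_of_nonneg_right this hk.le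
  have h3' : i * c ^ 2 * 6 / ((k : ℝ) + 1) * ((1 - ((k : ℝ) + 1) * (1 / c) - avY H (k + 1)) *
      (((k : ℝ) + 1) / ((k : ℝ) + 1 + 1)) * (4 / 3 * avY H (k + 2) + 1 / 3 * avB H (k + 2))
      + 5 / 6 * ((avB H (k + 1)) ^ 2 - ((k : ℝ) + 1) * (1 / c) * avB H (k + 1)))
      ≤ i * c ^ 2 * 6 / ((k : ℝ) + 1) * ((((k : ℝ) + 1) * h) ^ 2) := by
    rw [hr2] at h1
    have e1 : i * c ^ 2 * 6 / ((k : ℝ) + 1) * ((1 - ((k : ℝ) + 1) * (1 / c) - avY H (k + 1)) *
      (((k : ℝ) + 1) / ((k : ℝ) + 1 + 1)) * (4 / 3 * avY H (k + 2) + 1 / 3 * avB H (k + 2))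
      + 5 / 6 * ((avB H (k + 1)) ^ 2 - ((k : ℝ) + 1) * (1 / c) * avB H (k + 1)))
      = 5 * ((avB H (k + 1)) ^ 2 * i * c ^ 2 / ((k : ℝ) + 1))
      + (8 * avY H (k + 2) + 2 * avB H (k + 2)) *
        (i * (c * (1 - ((k : ℝ) + 1) * (1 / c) - avY H (k + 1))) / ((k : ℝ) + 2) * c)
      - 5 * (avB H (k + 1) * (i * c)) := by
      have : (k : ℝ) + 1 + 1 = (k : ℝ) + 2 := by ring
      rw [this]
      field_simp
      ring
    have e2 : i * c ^ 2 * 6 / ((k : ℝ) + 1) * ((((k : ℝ) + 1) * h) ^ 2)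
        = 6 * (h * c) ^ 2 * ((k : ℝ) + 1) * i := by
      field_simp
    rw [e1, e2]
    linarith
  exact le_of_mul_le_mul_left h3' (by positivity)

end Pool.Agent.H708.TD
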