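import Mathlib

set_option autoImplicit false

/-!
Definitions for the lower bound on the independence number of a 3-uniform hypergraph `H` with
bounded degrees: independent sets of each size, the vertices that can be added (`F`), the pairs
blocking a vertex (`Gr`), the colours of a pair (`N`).
-/

open Finset

namespace Pool.Agent.H708.TD

variable {α : Type*} [Fintype α] [DecidableEq α] (H : Finset (Finset α))

/-- `T` contains no triple of `H` -/
def Ind (T : Finset α) : Prop := ∀ e ∈ H, ¬ e ⊆ T

instance instDecInd (T : Finset α) : Decidable (Ind H T) := by unfold Ind; infer_instance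

/-- the independent sets of size `j` -/
def I (j : ℕ) : Finset (Finset α) := (univ.powersetCard j).filter (fun T => Ind H T)

/-- the vertices that can be added to `T` -/
def F (T : Finset α) : Finset α := univ.filter (fun v => v ∉ T ∧ Ind H (insert v T))

/-- the blocked vertices outside `T` -/
def Bl (T : Finset α) : Finset α := univ.filter (fun v => v ∉ T ∧ ¬ Ind H (insert v T))

/-- the pairs of `T` blocking `u` -/
def Gr (T : Finset α) (u : α) : Finset (Finset α) :=
  (T.powersetCard 2).filter (fun p => insert u p ∈ H)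

/-- the colours (in `U`) of the pair `x, v` -/
def N (U : Finset α) (x v : α) : Finset α := U.filter (fun z => ({x, v, z} : Finset α) ∈ H)

/-- the blocked vertices outside `T` all of whose blocking pairs contain `x` -/
def B (T : Finset α) (x : α) : Finset α :=
  univ.filter (fun u => u ∉ T ∧ (Gr H T u).Nonempty ∧ ∀ p ∈ Gr H T u, x ∈ p)

/-- weight of a family `G` of pairs of points of `T`: each point counts its degree, twice if some
pair of `G` avoids it -/
def wt (T : Finset α) (G : Finset (Finset α)) : ℕ :=
  ∑ v ∈ T, (G.filter (fun p => v ∈ p)).card * (if ∀ p ∈ G, v ∈ p then 1 else 2)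

/-- number of ordered pairs `v, v'` meeting all pairs of `G`, such that some pair contains `v` but
not `v'` and some pair contains `v'` but not `v` -/
def cc (T : Finset α) (G : Finset (Finset α)) : ℕ :=
  ((T ×ˢ T).filter (fun q => (∀ p ∈ G, q.1 ∈ p ∨ q.2 ∈ p) ∧ (∃ p ∈ G, q.1 ∈ p ∧ q.2 ∉ p) ∧
    (∃ p ∈ G, q.2 ∈ p ∧ q.1 ∉ p))).card

/-- number of points of `T` in all pairs of `G` (`0` if `G` is empty) -/
def bt (T : Finset α) (G : Finset (Finset α)) : ℕ :=
  if G.Nonempty then (T.filter (fun v => ∀ p ∈ G, v ∈ p)).card else 0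

/-- ordered triples of addable points, pairwise coloured -/
def Tri (U : Finset α) : Finset (α × α × α) :=
  (F H U ×ˢ F H U ×ˢ F H U).filter (fun q => (N H U q.1 q.2.1).Nonempty ∧
    (N H U q.1 q.2.2).Nonempty ∧ (N H U q.2.1 q.2.2).Nonempty)

/-- ordered cherries: `x` coloured with `v` and with `v'`, but `v ≠ v'` not coloured -/
def Ch (U : Finset α) : Finset (α × α × α) :=
  (F H U ×ˢ F H U ×ˢ F H U).filter (fun q => (N H U q.1 q.2.1).Nonempty ∧
    (N H U q.1 q.2.2).Nonempty ∧ q.2.1 ≠ q.2.2 ∧ ¬ (N H U q.2.1 q.2.2).Nonempty)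

/-- the mass of the coloured pairs between two sets -/
def L (T X Z : Finset α) : ℕ := ∑ v ∈ X, ∑ u ∈ Z, (N H T v u).card

end Pool.Agent.H708.TD
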