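import Pool.Graph.R_seed8.H121R2.Clone
set_option autoImplicit false
open Finset
namespace Pool.Agent.H708.TD

theorem d_gt_of_core
    (hcore : ∀ (n : ℕ) (F : Finset (Finset (Fin n))), (∀ e ∈ F, e.card = 3) → ∀ h : ℝ, 0 < h →
      h ≤ 1 / 100000 → 100000 ≤ h * n →
      (∀ z : Fin n, 2 * (((F.filter (fun e => z ∈ e)).card : ℕ) : ℝ) ≤ (h * n) ^ 2) →
      ∀ M : ℕ, (∀ S : Finset (Fin n), S.card = M → ∃ e ∈ F, e ⊆ S) →
      2501 / 1000 ≤ (((M : ℝ) - 1) * h) ^ 2)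
    {m : ℕ} (hm : 3 ≤ m) : 5 / 2 < ((m : ℝ) - 1) ^ 2 * H121R2.Turan.d m := by
  by_contra hcon
  push Not at hcon
  have hm' : (3 : ℝ) ≤ m := by exact_mod_cast hm
  -- the parameter
  have hA0 : 0 < 6324 / 10000 * ((m : ℝ) - 1) := by nlinarith
  have hA1 : (6324 / 10000 * ((m : ℝ) - 1)) ^ 2 * H121R2.Turan.d m ≤ 1 := by
    have e : (6324 / 10000 * ((m : ℝ) - 1)) ^ 2 * H121R2.Turan.d m =
        (6324 / 10000) ^ 2 * (((m : ℝ) - 1) ^ 2 * H121R2.Turan.d m) := by ring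
    rw [e]
    nlinarith
  obtain ⟨M, hM⟩ : ∃ M : ℕ, M = (199999 + 1) * (m - 1) + 1 := ⟨_, rfl⟩
  have hit := H121R2.Turan.d_iter hm hA0 hA1 199999
  rw [← hM] at hit
  obtain ⟨X, hX⟩ : ∃ X : ℕ, X = 200000 * (m - 1) := ⟨_, rfl⟩
  have hMX : M = X + 1 := by rw [hM, hX]
  have hXr : (X : ℝ) = 200000 * ((m : ℝ) - 1) := by
    rw [hX, Nat.cast_mul, Nat.cast_sub (by omega)]
    norm_num
  have hXge : (400000 : ℝ) ≤ X := by rw [hXr]; linarith
  have hXpos : (0 : ℝ) < X := by linarith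
  have hM3 : 3 ≤ M := by
    rw [hMX, hX]
    omega
  have hMr : (M : ℝ) - 1 = X := by rw [hMX]; push_cast; ring
  -- the bound for `d M`
  have hdM : (6324 / 10000) ^ 2 * ((X : ℝ) ^ 2 * H121R2.Turan.d M) ≤ 1 := by
    have e : ((((199999 : ℕ) : ℝ) + 1) * (6324 / 10000 * ((m : ℝ) - 1))) ^ 2 =
        (6324 / 10000) ^ 2 * (X : ℝ) ^ 2 := by
      rw [hXr]
      push_cast
      ring
    rw [e] at hit
    linarith
  have hdM0 : 0 ≤ H121R2.Turan.d M := H121R2.Turan.d_nonneg hM3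
  -- the number of points
  obtain ⟨n, hn⟩ : ∃ n : ℕ, n = 6000 * X ^ 2 := ⟨_, rfl⟩
  have hnr : (n : ℝ) = 6000 * (X : ℝ) ^ 2 := by rw [hn]; push_cast; ring
  have hnpos : (0 : ℝ) < n := by rw [hnr]; positivity
  obtain ⟨F, hF, hFc⟩ := H121R2.Turan.exists_cov hM3 n
  have hT : (H121R2.Turan.T M n : ℝ) ≤ H121R2.Turan.d M * ((n : ℝ) ^ 3 / 6) := by
    refine (H121R2.Turan.T_le_d hM3 n).trans ?_
    refine mul_le_mul_of_nonneg_left ?_ hdM0
    have h1 := Nat.choose_le_pow_div (α := ℝ) 3 n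
    have h2 : ((Nat.factorial 3 : ℕ) : ℝ) = 6 := by norm_num [Nat.factorial]
    rw [h2] at h1
    exact h1
  have hdeg : ∀ z : Fin n, 2 * (((F.filter (fun e => z ∈ e)).card : ℕ) : ℝ) ≤
      H121R2.Turan.d M * (n : ℝ) ^ 2 + 2 * n := by
    intro z
    have h1 := H121R2.Turan.deg_bound hM3 hF hFc z
    have h2 : (n : ℝ) * (((F.filter (fun e => z ∈ e)).card : ℕ) : ℝ) ≤
        3 * (H121R2.Turan.T M n : ℝ) + n * n := by exact_mod_cast h1
    have h3 : (n : ℝ) * (2 * (((F.filter (fun e => z ∈ e)).card : ℕ) : ℝ)) ≤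
        n * (H121R2.Turan.d M * (n : ℝ) ^ 2 + 2 * n) := by
      have e : (n : ℝ) * (H121R2.Turan.d M * (n : ℝ) ^ 2 + 2 * n) =
        6 * (H121R2.Turan.d M * ((n : ℝ) ^ 3 / 6)) + 2 * (n * n) := by ring
      rw [e]
      linarith
    exact le_of_mul_le_mul_left h3 hnpos
  have hh := hcore n F hF.1 (15814 / 10000 / X) (by positivity) (by
      rw [div_le_div_iff₀ hXpos (by norm_num)]
      linarith) (by
      rw [hnr]
      have e : (15814 / 10000 / (X : ℝ)) * (6000 * (X : ℝ) ^ 2) = 15814 / 10000 * 6000 * X := by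
        field_simp
      rw [e]
      linarith) (by
      intro z
      refine (hdeg z).trans ?_
      rw [hnr]
      have e : ((15814 / 10000 / (X : ℝ)) * (6000 * (X : ℝ) ^ 2)) ^ 2 =
          (15814 / 10000 * 6000) ^ 2 * (X : ℝ) ^ 2 := by
        field_simp
      rw [e]
      have e2 : H121R2.Turan.d M * (6000 * (X : ℝ) ^ 2) ^ 2 + 2 * (6000 * (X : ℝ) ^ 2) =
          (36000000 * ((X : ℝ) ^ 2 * H121R2.Turan.d M) + 12000) * (X : ℝ) ^ 2 := by ring
      rw [e2]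
      refine mul_le_mul_of_nonneg_right ?_ (by positivity)
      linarith) M hF.2
  rw [hMr] at hh
  have e : (X : ℝ) * (15814 / 10000 / X) = 15814 / 10000 := by field_simp
  rw [e] at hh
  norm_num at hh

end Pool.Agent.H708.TD
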