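import Pool.Agent.H708.TD.Defs
set_option autoImplicit false
open Finset
namespace Pool.Agent.H708.TD
variable {α : Type*} [Fintype α] [DecidableEq α]
/-!
TASK (finite graph inequality).  `G` is a graph on the point set `T` (a set of 2-element subsets of T).
wt = sum over v of deg(v) * (1 if all edges contain v, else 2);  bt = number of v in all edges (if G nonempty);
cc = number of ordered (v,v') that cover G and each have an edge avoiding the other.
Paper proof.  G empty: all terms are 0.  |G| = 1: wt = 2, cc = 0 (the cover v,v' with private edges needs two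
edges), bt = 2: 12 <= 12.  G a star with k >= 2 edges and centre s: wt = k*1 + k*1*2 = 3k >= 6, bt = 1,
cc <= 2 (fix an edge {s,a}; neither v nor v' is s, because the other one would need an edge avoiding s; so a is one
of them, and the other lies in another edge {s,c}, so it is c): 5*2+8+2 = 20 <= 36.
Otherwise (k >= 2, no common point; a family with no point in all edges): bt = 0, wt = 2*sum deg = 4k >= 8 and cc <= 8:
fix an edge {a,c}; a covering pair contains a or c; if it contains a, the other point v' lies in every edge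
avoiding a, and there is one (v' has an edge avoiding a), so there are at most 2 choices of v'; same for c: at most
4 unordered, 8 ordered pairs.  5*8+8 = 48 <= 6*8.   [If every edge contains v then bt > 0.]
-/

/-- the common points -/
def gq_C (T : Finset α) (G : Finset (Finset α)) : Finset α := T.filter (fun v => ∀ p ∈ G, v ∈ p)

omit [Fintype α] in
theorem gq_sum {T : Finset α} {G : Finset (Finset α)} (hG : G ⊆ T.powersetCard 2) :
    ∑ v ∈ T, (G.filter (fun p => v ∈ p)).card = 2 * G.card := by
  have h1 := Finset.sum_card_bipartiteAbove_eq_sum_card_bipartiteBelow (s := T) (t := G)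
    (fun (v : α) (p : Finset α) => v ∈ p)
  unfold Finset.bipartiteAbove Finset.bipartiteBelow at h1
  rw [h1]
  have h2 : ∀ p ∈ G, (T.filter (fun v => v ∈ p)).card = 2 := by
    intro p hp
    obtain ⟨h3, h4⟩ := Finset.mem_powersetCard.mp (hG hp)
    have h5 : T.filter (fun v => v ∈ p) = p := by
      ext v
      rw [Finset.mem_filter]
      exact ⟨fun h => h.2, fun h => ⟨h3 h, h⟩⟩
    rw [h5, h4]
  rw [Finset.sum_congr rfl h2, Finset.sum_const, smul_eq_mul, mul_comm]

theorem gq_wt {T : Finset α} {G : Finset (Finset α)} (hG : G ⊆ T.powersetCard 2) :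
    wt T G + G.card * (gq_C T G).card = 4 * G.card := by
  have h1 : G.card * (gq_C T G).card = ∑ v ∈ T, (if ∀ p ∈ G, v ∈ p then G.card else 0) := by
    unfold gq_C
    rw [← Finset.sum_filter, Finset.sum_const, smul_eq_mul, mul_comm]
  unfold wt
  rw [h1, ← Finset.sum_add_distrib]
  have h2 : ∀ v ∈ T, (G.filter (fun p => v ∈ p)).card * (if ∀ p ∈ G, v ∈ p then 1 else 2) +
      (if ∀ p ∈ G, v ∈ p then G.card else 0) = 2 * (G.filter (fun p => v ∈ p)).card := by
    intro v _
    by_cases h : ∀ p ∈ G, v ∈ p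
    · rw [if_pos h, if_pos h]
      have h3 : G.filter (fun p => v ∈ p) = G := Finset.filter_true_of_mem h
      rw [h3]
      ring
    · rw [if_neg h, if_neg h]
      ring
  rw [Finset.sum_congr rfl h2, ← Finset.mul_sum, gq_sum hG]
  ring

theorem gq_cc {T : Finset α} {G : Finset (Finset α)} (hG : G ⊆ T.powersetCard 2) {p0 : Finset α}
    (hp0 : p0 ∈ G) : cc T G ≤ 2 * ((2 - (gq_C T G).card) * (2 - (gq_C T G).card)) := by
  obtain ⟨t, ht⟩ : ∃ t, t = 2 - (gq_C T G).card := ⟨_, rfl⟩
  have hC : ∀ p ∈ G, gq_C T G ⊆ p := by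
    intro p hp v hv
    unfold gq_C at hv
    exact (Finset.mem_filter.mp hv).2 p hp
  have hcard : ∀ p ∈ G, (p \ gq_C T G).card = t := by
    intro p hp
    rw [Finset.card_sdiff_of_subset (hC p hp), (Finset.mem_powersetCard.mp (hG hp)).2, ht]
  have hT : ∀ v ∈ p0, v ∈ T := fun v hv => (Finset.mem_powersetCard.mp (hG hp0)).1 hv
  have hout : ∀ v, v ∉ gq_C T G → v ∈ T → ∃ p ∈ G, v ∉ p := by
    intro v hv hvT
    by_contra hcon
    push Not at hcon
    exact hv (Finset.mem_filter.mpr ⟨hvT, hcon⟩)
  obtain ⟨S, hS⟩ : ∃ S, S = (T ×ˢ T).filter (fun q => (∀ p ∈ G, q.1 ∈ p ∨ q.2 ∈ p) ∧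
    (∃ p ∈ G, q.1 ∈ p ∧ q.2 ∉ p) ∧ (∃ p ∈ G, q.2 ∈ p ∧ q.1 ∉ p)) := ⟨_, rfl⟩
  have hmem : ∀ q ∈ S, (∀ p ∈ G, q.1 ∈ p ∨ q.2 ∈ p) ∧ q.1 ∉ gq_C T G ∧ q.2 ∉ gq_C T G := by
    intro q hq
    rw [hS, Finset.mem_filter] at hq
    obtain ⟨-, h1, ⟨p, hp, -, h2⟩, ⟨p', hp', -, h3⟩⟩ := hq
    exact ⟨h1, fun h => h3 (hC p' hp' h), fun h => h2 (hC p hp h)⟩
  have h1 : (S.filter (fun q => q.1 ∈ p0)).card ≤ t * t := by
    have h2 := Finset.card_le_mul_card_image_of_maps_to (s := S.filter (fun q => q.1 ∈ p0))
      (t := p0 \ gq_C T G) (f := fun q => q.1) (fun q hq => by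
        obtain ⟨h3, h4⟩ := Finset.mem_filter.mp hq
        exact Finset.mem_sdiff.mpr ⟨h4, (hmem q h3).2.1⟩) t (fun b hb => by
        obtain ⟨h3, h4⟩ := Finset.mem_sdiff.mp hb
        obtain ⟨p, hp, hbp⟩ := hout b h4 (hT b h3)
        rw [← hcard p hp]
        refine Finset.card_le_card_of_injOn (fun q => q.2) (fun q hq => ?_) (fun q hq q' hq' h => ?_)
        · obtain ⟨h5, h6⟩ := Finset.mem_filter.mp (Finset.mem_coe.mp hq)
          obtain ⟨h7, -⟩ := Finset.mem_filter.mp h5
          obtain ⟨h8, -, h9⟩ := hmem q h7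
          refine Finset.mem_coe.mpr (Finset.mem_sdiff.mpr ⟨?_, h9⟩)
          rcases h8 p hp with h10 | h10
          · exact absurd (h6 ▸ h10) hbp
          · exact h10
        · have h6 := (Finset.mem_filter.mp (Finset.mem_coe.mp hq)).2
          have h7 := (Finset.mem_filter.mp (Finset.mem_coe.mp hq')).2
          exact Prod.ext (h6.trans h7.symm) h)
    rwa [hcard p0 hp0] at h2
  have h2 : (S.filter (fun q => q.2 ∈ p0)).card ≤ t * t := by
    have h2 := Finset.card_le_mul_card_image_of_maps_to (s := S.filter (fun q => q.2 ∈ p0))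
      (t := p0 \ gq_C T G) (f := fun q => q.2) (fun q hq => by
        obtain ⟨h3, h4⟩ := Finset.mem_filter.mp hq
        exact Finset.mem_sdiff.mpr ⟨h4, (hmem q h3).2.2⟩) t (fun b hb => by
        obtain ⟨h3, h4⟩ := Finset.mem_sdiff.mp hb
        obtain ⟨p, hp, hbp⟩ := hout b h4 (hT b h3)
        rw [← hcard p hp]
        refine Finset.card_le_card_of_injOn (fun q => q.1) (fun q hq => ?_) (fun q hq q' hq' h => ?_)
        · obtain ⟨h5, h6⟩ := Finset.mem_filter.mp (Finset.mem_coe.mp hq)
          obtain ⟨h7, -⟩ := Finset.mem_filter.mp h5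
          obtain ⟨h8, h9, -⟩ := hmem q h7
          refine Finset.mem_coe.mpr (Finset.mem_sdiff.mpr ⟨?_, h9⟩)
          rcases h8 p hp with h10 | h10
          · exact h10
          · exact absurd (h6 ▸ h10) hbp
        · have h6 := (Finset.mem_filter.mp (Finset.mem_coe.mp hq)).2
          have h7 := (Finset.mem_filter.mp (Finset.mem_coe.mp hq')).2
          exact Prod.ext h (h6.trans h7.symm))
    rwa [hcard p0 hp0] at h2
  have h3 : S ⊆ S.filter (fun q => q.1 ∈ p0) ∪ S.filter (fun q => q.2 ∈ p0) := by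
    intro q hq
    rw [Finset.mem_union, Finset.mem_filter, Finset.mem_filter]
    rcases (hmem q hq).1 p0 hp0 with h | h
    · exact Or.inl ⟨hq, h⟩
    · exact Or.inr ⟨hq, h⟩
  have h4 := (Finset.card_le_card h3).trans (Finset.card_union_le _ _)
  have h5 : cc T G = S.card := by rw [hS]; rfl
  rw [h5, ← ht]
  omega

theorem graph_ineq {T : Finset α} {G : Finset (Finset α)} (hG : G ⊆ T.powersetCard 2) :
    5 * cc T G + 8 * (if G.Nonempty then 1 else 0) + 2 * bt T G ≤ 6 * wt T G := by
  by_cases hne : G.Nonempty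
  · obtain ⟨p0, hp0⟩ := hne
    have hne : G.Nonempty := ⟨p0, hp0⟩
    have h1 := gq_wt hG
    have h2 := gq_cc hG hp0
    have h3 : bt T G = (gq_C T G).card := by
      unfold bt gq_C
      rw [if_pos hne]
    have hp2 := (Finset.mem_powersetCard.mp (hG hp0)).2
    have hpT := (Finset.mem_powersetCard.mp (hG hp0)).1
    have h4 : (gq_C T G).card ≤ 2 := by
      rw [← hp2]
      refine Finset.card_le_card fun v hv => ?_
      unfold gq_C at hv
      exact (Finset.mem_filter.mp hv).2 p0 hp0
    have h5 : 1 ≤ G.card := Finset.card_pos.mpr hne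
    have h6 : G.card = 1 → (gq_C T G).card = 2 := by
      intro h
      obtain ⟨q, hq⟩ := Finset.card_eq_one.mp h
      have hq0 : p0 = q := by
        rw [hq] at hp0
        exact Finset.mem_singleton.mp hp0
      have h7 : gq_C T G = p0 := by
        unfold gq_C
        ext v
        rw [Finset.mem_filter]
        constructor
        · intro hv
          exact hv.2 p0 hp0
        · intro hv
          refine ⟨hpT hv, fun p hp => ?_⟩
          rw [hq] at hp
          rw [Finset.mem_singleton.mp hp, ← hq0]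
          exact hv
      rw [h7, hp2]
    rw [if_pos hne, h3]
    obtain ⟨c, hc⟩ : ∃ c, c = (gq_C T G).card := ⟨_, rfl⟩
    obtain ⟨k, hk⟩ : ∃ k, k = G.card := ⟨_, rfl⟩
    rw [← hc] at h1 h2 h4 h6 ⊢
    rw [← hk] at h1 h5 h6
    interval_cases c
    · have h7 : 2 ≤ k := by
        rcases Nat.lt_or_ge k 2 with h | h
        · have := h6 (by omega)
          omega
        · exact h
      omega
    · have h7 : 2 ≤ k := by
        rcases Nat.lt_or_ge k 2 with h | h
        · have := h6 (by omega)
          omega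
        · exact h
      omega
    · omega
  · rw [Finset.not_nonempty_iff_eq_empty] at hne
    subst hne
    have h1 : cc T ∅ = 0 := by
      unfold cc
      rw [Finset.card_eq_zero, Finset.filter_eq_empty_iff]
      rintro q - ⟨-, ⟨p, hp, -⟩, -⟩
      exact absurd hp (Finset.notMem_empty p)
    have h2 : bt T ∅ = 0 := by
      unfold bt
      rw [if_neg Finset.not_nonempty_empty]
    rw [h1, h2, if_neg Finset.not_nonempty_empty]
    omega

end Pool.Agent.H708.TD
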