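import Pool.Agent.H708.TD.Defs
set_option autoImplicit false
open Finset
namespace Pool.Agent.H708.TD
variable {α : Type*} [Fintype α] [DecidableEq α] {H : Finset (Finset α)}
/-!
TASK (double counting).  Paper proof.  Pairs (T, v), T ∈ I j, v ∈ F T  <->  pairs (T', v), T' ∈ I (j+1), v ∈ T',
 T' = insert v T, T = T'.erase v.  The left side is Σ_T Σ_{v ∈ F T} (Σ_{u ∈ F T} |N T v u| + 2 Σ_{u ∈ Bl T} |N T v u|).
 F T and Bl T partition univ \ T.  For v ∈ F T the term u = v vanishes (|{v,v,z}| ≤ 2 and h3), so u runs over univ \ T'.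
 For u ∉ T': |N T v u| = number of p ∈ Gr T' u with v ∈ p (p = {v,z}), and
 u ∈ F T  <->  no pair of Gr T' u avoids v  (Gr (T'.erase v) u = pairs of Gr T' u avoiding v; u ∈ F T iff it is empty,
 because a triple of H in insert u T contains u).  So the weight is 1 if all pairs of Gr T' u contain v, else 2: this
 is wt T' (Gr T' u).
-/

namespace MassAux

omit [Fintype α] [DecidableEq α] in
theorem Ind.mono {S T : Finset α} (h : Ind H T) (hS : S ⊆ T) : Ind H S :=
  fun e he hes => h e he (hes.trans hS)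

theorem mem_I {j : ℕ} {T : Finset α} : T ∈ I H j ↔ T.card = j ∧ Ind H T := by
  unfold I
  rw [mem_filter, mem_powersetCard]
  simp

theorem mem_F {T : Finset α} {v : α} : v ∈ F H T ↔ v ∉ T ∧ Ind H (insert v T) := by
  unfold F
  simp

omit [Fintype α] in
theorem N_self (h3 : ∀ e ∈ H, e.card = 3) (T : Finset α) (v : α) : N H T v v = ∅ := by
  unfold N
  rw [filter_eq_empty_iff]
  intro z _ hz
  have h1 := h3 _ hz
  have h2 : ({v, v, z} : Finset α) = {v, z} := by simp
  rw [h2] at h1
  have := card_le_two (a := v) (b := z)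
  omega

omit [Fintype α] in
theorem ind_iff {T : Finset α} {u v : α} (h3 : ∀ e ∈ H, e.card = 3) (hv : v ∉ T)
    (hT : Ind H (insert v T)) :
    Ind H (insert u T) ↔ ∀ p ∈ Gr H (insert v T) u, v ∈ p := by
  constructor
  · intro h p hp
    by_contra hvp
    unfold Gr at hp
    obtain ⟨hp1, hp2⟩ := mem_filter.1 hp
    obtain ⟨hp3, -⟩ := mem_powersetCard.1 hp1
    refine h _ hp2 (insert_subset_insert u ?_)
    intro x hx
    rcases mem_insert.1 (hp3 hx) with h1 | h1
    · exact absurd (h1 ▸ hx) hvp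
    · exact h1
  · intro h e he hes
    have hu : u ∈ e := by
      by_contra hu
      refine hT e he ?_
      intro x hx
      rcases mem_insert.1 (hes hx) with h1 | h1
      · exact absurd (h1 ▸ hx) hu
      · exact mem_insert_of_mem h1
    have hsub : e.erase u ⊆ T := by
      intro x hx
      obtain ⟨h1, h2⟩ := mem_erase.1 hx
      exact (mem_insert.1 (hes h2)).resolve_left h1
    have hp : e.erase u ∈ Gr H (insert v T) u := by
      unfold Gr
      rw [mem_filter, mem_powersetCard, insert_erase hu, card_erase_of_mem hu, h3 e he]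
      exact ⟨⟨hsub.trans (subset_insert v T), rfl⟩, he⟩
    exact hv (hsub (h _ hp))

omit [Fintype α] in
theorem card_N_eq {T : Finset α} {u v : α} (hv : v ∉ T) :
    (N H T v u).card = ((Gr H (insert v T) u).filter (fun p => v ∈ p)).card := by
  refine card_bij (fun z _ => ({v, z} : Finset α)) ?_ ?_ ?_
  · intro z hz
    unfold N at hz
    obtain ⟨h1, h2⟩ := mem_filter.1 hz
    have hvz : v ≠ z := fun h => hv (h ▸ h1)
    unfold Gr
    rw [mem_filter, mem_filter, mem_powersetCard]
    refine ⟨⟨⟨?_, card_pair hvz⟩, ?_⟩, by simp⟩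
    · intro x hx
      rw [mem_insert, mem_singleton] at hx
      rcases hx with h | h
      · rw [h]; exact mem_insert_self v T
      · rw [h]; exact mem_insert_of_mem h1
    · have h4 : (insert u {v, z} : Finset α) = {v, u, z} := by
        rw [Finset.insert_comm]
      rw [h4]
      exact h2
  · intro z hz z' hz' hzz
    unfold N at hz hz'
    have h1 := (mem_filter.1 hz).1
    have hvz : z ≠ v := fun h => hv (h ▸ h1)
    have h2 : z ∈ ({v, z'} : Finset α) := by
      have : z ∈ ({v, z} : Finset α) := by simp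
      exact hzz ▸ this
    rw [mem_insert, mem_singleton] at h2
    exact h2.resolve_left hvz
  · intro p hp
    obtain ⟨hp1, hvp⟩ := mem_filter.1 hp
    unfold Gr at hp1
    obtain ⟨hp2, hp3⟩ := mem_filter.1 hp1
    obtain ⟨hp4, hp5⟩ := mem_powersetCard.1 hp2
    have h6 : (p.erase v).card = 1 := by rw [card_erase_of_mem hvp, hp5]
    obtain ⟨z, hz⟩ := card_eq_one.1 h6
    have hp7 : p = {v, z} := by
      rw [← insert_erase hvp, hz]
    have hz1 : z ∈ p.erase v := by rw [hz]; exact mem_singleton_self z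
    have hz2 : z ≠ v := (mem_erase.1 hz1).1
    refine ⟨z, ?_, hp7.symm⟩
    unfold N
    rw [mem_filter]
    refine ⟨(mem_insert.1 (hp4 (mem_erase.1 hz1).2)).resolve_left hz2, ?_⟩
    have h4 : ({v, u, z} : Finset α) = insert u {v, z} := by
      rw [Finset.insert_comm]
    rw [h4, ← hp7]
    exact hp3

/-- the contribution of one addable vertex -/
theorem pointwise (h3 : ∀ e ∈ H, e.card = 3) {T : Finset α} {v : α} (hv : v ∈ F H T) :
    (∑ u ∈ F H T, (N H T v u).card) + 2 * ∑ u ∈ Bl H T, (N H T v u).card =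
      ∑ u ∈ univ \ insert v T, ((Gr H (insert v T) u).filter (fun p => v ∈ p)).card *
        (if ∀ p ∈ Gr H (insert v T) u, v ∈ p then 1 else 2) := by
  obtain ⟨hvT, hI⟩ := mem_F.1 hv
  have e1 : (∑ u ∈ F H T, (N H T v u).card) + 2 * ∑ u ∈ Bl H T, (N H T v u).card =
      ∑ u ∈ univ \ T, (N H T v u).card * (if Ind H (insert u T) then 1 else 2) := by
    have hF : F H T = (univ \ T).filter (fun u => Ind H (insert u T)) := by
      ext u
      unfold F
      simp
    have hB : Bl H T = (univ \ T).filter (fun u => ¬ Ind H (insert u T)) := by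
      ext u
      unfold Bl
      simp
    rw [hF, hB, sum_filter, sum_filter, mul_sum, ← sum_add_distrib]
    refine sum_congr rfl fun u _ => ?_
    by_cases h : Ind H (insert u T)
    · rw [if_pos h, if_pos h, if_neg (not_not.2 h)]
      ring
    · rw [if_neg h, if_neg h, if_pos h]
      ring
  rw [e1]
  have e2 : univ \ T = insert v (univ \ insert v T) := by
    ext x
    simp only [mem_sdiff, mem_univ, true_and, mem_insert]
    constructor
    · intro hx
      by_cases hxv : x = v
      · exact Or.inl hxv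
      · exact Or.inr (fun h => h.elim hxv hx)
    · rintro (hx | hx)
      · rw [hx]; exact hvT
      · exact fun h => hx (Or.inr h)
  have e3 : v ∉ univ \ insert v T := by simp
  rw [e2, sum_insert e3, N_self h3, card_empty, zero_mul, zero_add]
  refine sum_congr rfl fun u _ => ?_
  rw [card_N_eq hvT]
  congr 1
  by_cases h : Ind H (insert u T)
  · rw [if_pos h, if_pos ((ind_iff h3 hvT hI).1 h)]
  · rw [if_neg h, if_neg (fun h' => h ((ind_iff h3 hvT hI).2 h'))]

end MassAux

open MassAux in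
theorem mass_eq (h3 : ∀ e ∈ H, e.card = 3) (j : ℕ) :
    ∑ T ∈ I H j, (L H T (F H T) (F H T) + 2 * L H T (F H T) (Bl H T)) =
      ∑ T ∈ I H (j + 1), ∑ u ∈ univ \ T, wt T (Gr H T u) := by
  have eL : ∀ T ∈ I H j, L H T (F H T) (F H T) + 2 * L H T (F H T) (Bl H T) =
      ∑ v ∈ F H T, ∑ u ∈ univ \ insert v T,
        ((Gr H (insert v T) u).filter (fun p => v ∈ p)).card *
        (if ∀ p ∈ Gr H (insert v T) u, v ∈ p then 1 else 2) := by
    intro T _
    unfold L
    rw [mul_sum, ← sum_add_distrib]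
    exact sum_congr rfl fun v hv => pointwise h3 hv
  have eR : ∀ T ∈ I H (j + 1), ∑ u ∈ univ \ T, wt T (Gr H T u) =
      ∑ v ∈ T, ∑ u ∈ univ \ T, ((Gr H T u).filter (fun p => v ∈ p)).card *
        (if ∀ p ∈ Gr H T u, v ∈ p then 1 else 2) := by
    intro T _
    unfold wt
    rw [sum_comm]
  rw [sum_congr rfl eL, sum_congr rfl eR]
  refine (sum_sigma' (I H j) (fun T => F H T) (fun T v => ∑ u ∈ univ \ insert v T,
        ((Gr H (insert v T) u).filter (fun p => v ∈ p)).card *
        (if ∀ p ∈ Gr H (insert v T) u, v ∈ p then 1 else 2))).trans ?_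
  refine Eq.trans ?_ (sum_sigma' (I H (j + 1)) (fun T => T) (fun T v => ∑ u ∈ univ \ T,
        ((Gr H T u).filter (fun p => v ∈ p)).card *
        (if ∀ p ∈ Gr H T u, v ∈ p then 1 else 2))).symm
  refine sum_bij' (fun x _ => (⟨insert x.2 x.1, x.2⟩ : Σ _ : Finset α, α))
    (fun x _ => (⟨x.1.erase x.2, x.2⟩ : Σ _ : Finset α, α)) ?_ ?_ ?_ ?_ ?_
  · rintro ⟨T, v⟩ hx
    obtain ⟨h1, h2⟩ := mem_sigma.1 hx
    obtain ⟨h1a, -⟩ := mem_I.1 h1
    obtain ⟨h2a, h2b⟩ := mem_F.1 h2
    refine mem_sigma.2 ⟨mem_I.2 ⟨?_, h2b⟩, mem_insert_self v T⟩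
    show (insert v T).card = j + 1
    rw [card_insert_of_notMem h2a]
    exact congrArg (· + 1) h1a
  · rintro ⟨T, v⟩ hx
    obtain ⟨h1, h2⟩ := mem_sigma.1 hx
    obtain ⟨h1a, h1b⟩ := mem_I.1 h1
    have h2' : v ∈ T := h2
    refine mem_sigma.2 ⟨mem_I.2 ⟨?_, Ind.mono h1b (erase_subset v T)⟩,
      mem_F.2 ⟨notMem_erase v T, ?_⟩⟩
    · show (T.erase v).card = j
      rw [card_erase_of_mem h2']
      have : T.card = j + 1 := h1a
      omega
    · show Ind H (insert v (T.erase v))
      rw [insert_erase h2']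
      exact h1b
  · rintro ⟨T, v⟩ hx
    obtain ⟨-, h2⟩ := mem_sigma.1 hx
    have h2a := (mem_F.1 h2).1
    show (⟨(insert v T).erase v, v⟩ : Σ _ : Finset α, α) = ⟨T, v⟩
    rw [erase_insert h2a]
  · rintro ⟨T, v⟩ hx
    obtain ⟨-, h2⟩ := mem_sigma.1 hx
    have h2' : v ∈ T := h2
    show (⟨insert v (T.erase v), v⟩ : Σ _ : Finset α, α) = ⟨T, v⟩
    rw [insert_erase h2']
  · rintro ⟨T, v⟩ _
    rfl

end Pool.Agent.H708.TD
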