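import Pool.Agent.H708.TD.Defs
set_option autoImplicit false
open Finset
namespace Pool.Agent.H708.TD
variable {α : Type*} [Fintype α] [DecidableEq α] {H : Finset (Finset α)}

namespace TRI

/-- doubled weight -/
def w (A B : Finset α) (z : α) : ℕ := if ∃ y, y ≠ z ∧ A = {y} ∧ B = {y} then 1 else 2

/-- doubled `ρ` -/
def f (A B C : Finset α) : ℕ := ∑ z ∈ C, w A B z

lemma w_le (A B : Finset α) (z : α) : w A B z ≤ 2 := by
  unfold w
  split_ifs <;> omega

lemma one_le_w (A B : Finset α) (z : α) : 1 ≤ w A B z := by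
  unfold w
  split_ifs <;> omega

lemma w_le_f {A B C : Finset α} {z : α} (hz : z ∈ C) : w A B z ≤ f A B C :=
  Finset.single_le_sum (f := fun z => w A B z) (fun _ _ => Nat.zero_le _) hz

lemma f_ge_one {A B C : Finset α} (hC : C.Nonempty) : 1 ≤ f A B C := by
  obtain ⟨z, hz⟩ := hC
  exact (one_le_w A B z).trans (w_le_f hz)

lemma f_lt {A B C : Finset α} (hC : C.Nonempty) (h : f A B C < 2) :
    ∃ y, A = {y} ∧ B = {y} ∧ C ≠ {y} := by
  obtain ⟨z, hz⟩ := hC
  have h1 : w A B z < 2 := (w_le_f hz).trans_lt h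
  unfold w at h1
  by_cases h2 : ∃ y, y ≠ z ∧ A = {y} ∧ B = {y}
  · obtain ⟨y, hy, hA, hB⟩ := h2
    refine ⟨y, hA, hB, ?_⟩
    rintro rfl
    exact hy (Finset.mem_singleton.1 hz).symm
  · rw [if_neg h2] at h1
    omega

lemma f_two {A B C : Finset α} (hB : B.Nonempty) (hC : C.Nonempty) (h1 : f A B C < 2)
    (h2 : f C A B < 2) : False := by
  obtain ⟨y, hA, hB', hC'⟩ := f_lt hC h1
  obtain ⟨y', hC2, hA2, hB2⟩ := f_lt hB h2
  rw [hA, Finset.singleton_inj] at hA2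
  rw [← hA2] at hC2
  exact hC' hC2

lemma f_sum {A B C : Finset α} (hA : A.Nonempty) (hB : B.Nonempty) (hC : C.Nonempty) :
    5 ≤ f A B C + f C A B + f B C A := by
  have h1 : 1 ≤ f A B C := f_ge_one hC
  have h2 : 1 ≤ f C A B := f_ge_one hB
  have h3 : 1 ≤ f B C A := f_ge_one hA
  by_cases h4 : f A B C < 2
  · by_cases h5 : f C A B < 2
    · exact (f_two hB hC h4 h5).elim
    · by_cases h6 : f B C A < 2
      · exact (f_two hC hA h6 h4).elim
      · omega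
  · by_cases h5 : f C A B < 2
    · by_cases h6 : f B C A < 2
      · exact (f_two hA hB h5 h6).elim
      · omega
    · omega

lemma N_symm (U : Finset α) (x v : α) : N H U x v = N H U v x := by
  unfold N
  refine Finset.filter_congr fun z _ => ?_
  rw [Finset.insert_comm]

lemma mem_Tri {U : Finset α} {q : α × α × α} : q ∈ Tri H U ↔
    (q.1 ∈ F H U ∧ q.2.1 ∈ F H U ∧ q.2.2 ∈ F H U) ∧ (N H U q.1 q.2.1).Nonempty ∧
    (N H U q.1 q.2.2).Nonempty ∧ (N H U q.2.1 q.2.2).Nonempty := by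
  unfold Tri
  rw [Finset.mem_filter, Finset.mem_product, Finset.mem_product]

lemma tri_rot {U : Finset α} {q : α × α × α} (h : q ∈ Tri H U) :
    (q.2.1, q.2.2, q.1) ∈ Tri H U := by
  rw [mem_Tri] at h ⊢
  obtain ⟨⟨h1, h2, h3⟩, h4, h5, h6⟩ := h
  refine ⟨⟨h2, h3, h1⟩, h6, ?_, ?_⟩
  · rw [N_symm]
    exact h4
  · rw [N_symm]
    exact h5

/-- doubled `ρ` of a triple -/
def ρ (H : Finset (Finset α)) (U : Finset α) (q : α × α × α) : ℕ :=
  f (N H U q.1 q.2.1) (N H U q.1 q.2.2) (N H U q.2.1 q.2.2)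

lemma rho_ge {U : Finset α} {q : α × α × α} (h : q ∈ Tri H U) :
    5 ≤ ρ H U q + ρ H U (q.2.1, q.2.2, q.1) + ρ H U (q.2.2, q.1, q.2.1) := by
  rw [mem_Tri] at h
  obtain ⟨-, h4, h5, h6⟩ := h
  have h7 := f_sum h4 h5 h6
  simp only [ρ]
  rw [N_symm U q.2.1 q.1, N_symm U q.2.2 q.1, N_symm U q.2.2 q.2.1]
  exact h7

lemma sum_rot (U : Finset α) (φ : α × α × α → ℕ) :
    ∑ q ∈ Tri H U, φ (q.2.1, q.2.2, q.1) = ∑ q ∈ Tri H U, φ q := by
  refine Finset.sum_nbij' (fun q => (q.2.1, q.2.2, q.1)) (fun q => (q.2.2, q.1, q.2.1))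
    (fun q hq => tri_rot hq) (fun q hq => tri_rot (tri_rot hq)) (fun q _ => rfl) (fun q _ => rfl)
    (fun q _ => rfl)

lemma part_c (U : Finset α) : 5 * (Tri H U).card ≤ 3 * ∑ q ∈ Tri H U, ρ H U q := by
  have h1 := sum_rot (H := H) U (ρ H U)
  have h2 := sum_rot (H := H) U (fun q => ρ H U (q.2.1, q.2.2, q.1))
  have h3 : ∑ q ∈ Tri H U, 5 ≤
      ∑ q ∈ Tri H U, (ρ H U q + ρ H U (q.2.1, q.2.2, q.1) + ρ H U (q.2.2, q.1, q.2.1)) :=
    Finset.sum_le_sum fun q hq => rho_ge hq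
  rw [Finset.sum_add_distrib, Finset.sum_add_distrib, Finset.sum_const, smul_eq_mul] at h3
  simp only at h2
  rw [h2, h1] at h3
  omega

/-- The index set on the left. -/
def S (H : Finset (Finset α)) (j : ℕ) : Finset (Σ _ : Finset α, Σ _ : α × α × α, α) :=
  (I H j).sigma fun U => (Tri H U).sigma fun q => N H U q.2.1 q.2.2

/-- The index set on the right. -/
def R (H : Finset (Finset α)) (j : ℕ) : Finset (Σ _ : Finset α, Σ _ : α × α, α) :=
  (I H (j + 1)).sigma fun T => (Bl H T ×ˢ Bl H T).sigma fun p => N H T p.1 p.2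

lemma card_R (j : ℕ) : (R H j).card = ∑ T ∈ I H (j + 1), L H T (Bl H T) (Bl H T) := by
  unfold R L
  rw [Finset.card_sigma]
  refine Finset.sum_congr rfl fun T _ => ?_
  rw [Finset.card_sigma, Finset.sum_product]

/-- weight of an index on the left -/
def W (H : Finset (Finset α)) (s : Σ _ : Finset α, Σ _ : α × α × α, α) : ℕ :=
  w (N H s.1 s.2.1.1 s.2.1.2.1) (N H s.1 s.2.1.1 s.2.1.2.2) s.2.2

lemma sum_S (j : ℕ) : ∑ U ∈ I H j, ∑ q ∈ Tri H U, ρ H U q = ∑ s ∈ S H j, W H s := by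
  unfold S
  rw [Finset.sum_sigma]
  refine Finset.sum_congr rfl fun U _ => ?_
  rw [Finset.sum_sigma]
  rfl

/-- the map -/
def g (s : Σ _ : Finset α, Σ _ : α × α × α, α) : Σ _ : Finset α, Σ _ : α × α, α :=
  ⟨insert s.2.1.1 s.1, ⟨(s.2.1.2.1, s.2.1.2.2), s.2.2⟩⟩

lemma mem_S {j : ℕ} {U : Finset α} {x v u z : α} :
    (⟨U, ⟨(x, v, u), z⟩⟩ : Σ _ : Finset α, Σ _ : α × α × α, α) ∈ S H j ↔
      U ∈ I H j ∧ (x, v, u) ∈ Tri H U ∧ z ∈ N H U v u := by
  unfold S
  rw [Finset.mem_sigma, Finset.mem_sigma]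

lemma mem_F {U : Finset α} {v : α} : v ∈ F H U ↔ v ∉ U ∧ Ind H (insert v U) := by
  unfold F
  simp only [Finset.mem_filter, Finset.mem_univ, true_and]

lemma mem_N {U : Finset α} {x v z : α} : z ∈ N H U x v ↔ z ∈ U ∧ ({x, v, z} : Finset α) ∈ H := by
  unfold N
  rw [Finset.mem_filter]

lemma mem_I {j : ℕ} {U : Finset α} : U ∈ I H j ↔ U.card = j ∧ Ind H U := by
  unfold I
  rw [Finset.mem_filter, Finset.mem_powersetCard]
  simp only [Finset.subset_univ, true_and]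

lemma bl_of (h3 : ∀ e ∈ H, e.card = 3) {U : Finset α} {x v : α} (hv : v ∈ F H U)
    (hN : (N H U x v).Nonempty) : v ∈ Bl H (insert x U) := by
  obtain ⟨y, hy⟩ := hN
  rw [mem_N] at hy
  rw [mem_F] at hv
  unfold Bl
  rw [Finset.mem_filter]
  refine ⟨Finset.mem_univ _, ?_, ?_⟩
  · rw [Finset.mem_insert, not_or]
    refine ⟨?_, hv.1⟩
    rintro rfl
    have h4 := h3 _ hy.2
    rw [Finset.insert_eq_of_mem (Finset.mem_insert_self v _)] at h4
    have h5 : ({v, y} : Finset α).card ≤ 2 := Finset.card_le_two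
    omega
  · intro hI
    refine hI _ hy.2 ?_
    intro t ht
    simp only [Finset.mem_insert, Finset.mem_singleton] at ht ⊢
    rcases ht with rfl | rfl | rfl
    · exact Or.inr (Or.inl rfl)
    · exact Or.inl rfl
    · exact Or.inr (Or.inr hy.1)

lemma maps (h3 : ∀ e ∈ H, e.card = 3) (j : ℕ) : ∀ s ∈ S H j, g s ∈ R H j := by
  rintro ⟨U, ⟨x, v, u⟩, z⟩ hs
  rw [mem_S, mem_Tri] at hs
  obtain ⟨hU, ⟨⟨hx, hv, hu⟩, h4, h5, h6⟩, hz⟩ := hs
  simp only at hx hv hu h4 h5 h6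
  rw [mem_I] at hU
  have hx' := mem_F.1 hx
  simp only [g, R, Finset.mem_sigma, Finset.mem_product]
  refine ⟨mem_I.2 ⟨?_, hx'.2⟩, ⟨bl_of h3 hv h4, bl_of h3 hu h5⟩, ?_⟩
  · rw [Finset.card_insert_of_notMem hx'.1, hU.1]
  · rw [mem_N] at hz ⊢
    exact ⟨Finset.mem_insert_of_mem hz.1, hz.2⟩

/-- the colours of the pair, when there are two preimages -/
lemma key {U U' : Finset α} {x x' v : α} (hx : x ∉ U) (hx' : x' ∉ U') (hxx : x ≠ x')
    (hT : insert x U = insert x' U') (hv : v ∈ F H U') (hN : (N H U x v).Nonempty) :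
    N H U x v = {x'} := by
  have h1 : x ∈ U' := by
    have h2 : x ∈ insert x' U' := by
      rw [← hT]
      exact Finset.mem_insert_self _ _
    exact (Finset.mem_insert.1 h2).resolve_left hxx
  have h4 : ∀ y ∈ N H U x v, y = x' := by
    intro y hy
    rw [mem_N] at hy
    by_contra hne
    have h5 : y ∈ U' := by
      have h2 : y ∈ insert x' U' := by
        rw [← hT]
        exact Finset.mem_insert_of_mem hy.1
      exact (Finset.mem_insert.1 h2).resolve_left hne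
    refine (mem_F.1 hv).2 _ hy.2 ?_
    intro t ht
    simp only [Finset.mem_insert, Finset.mem_singleton] at ht ⊢
    rcases ht with rfl | rfl | rfl
    · exact Or.inr h1
    · exact Or.inl rfl
    · exact Or.inr h5
  exact Finset.eq_singleton_iff_nonempty_unique_mem.2 ⟨hN, h4⟩

/-- two preimages -/
lemma two {j : ℕ} {s s' : Σ _ : Finset α, Σ _ : α × α × α, α} (hs : s ∈ S H j)
    (hs' : s' ∈ S H j) (hg : g s = g s') (hne : s ≠ s') :
    W H s = 1 ∧ N H s.1 s.2.1.1 s.2.1.2.1 = {s'.2.1.1} := by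
  obtain ⟨U, ⟨x, v, u⟩, z⟩ := s
  obtain ⟨U', ⟨x', v', u'⟩, z'⟩ := s'
  simp only [g, Sigma.mk.injEq, heq_eq_eq, Prod.mk.injEq] at hg
  obtain ⟨hT, ⟨rfl, rfl⟩, rfl⟩ := hg
  rw [mem_S, mem_Tri] at hs hs'
  obtain ⟨hU, ⟨⟨hx, hv, hu⟩, h4, h5, h6⟩, hz⟩ := hs
  obtain ⟨hU', ⟨⟨hx', hv', hu'⟩, h4', h5', h6'⟩, hz'⟩ := hs'
  simp only at hx hv hu h4 h5 h6 hx' hv' hu' h4' h5' h6' hT
  have hxU := (mem_F.1 hx).1
  have hxU' := (mem_F.1 hx').1
  have hxx : x ≠ x' := by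
    rintro rfl
    apply hne
    have h7 : U = U' := by
      rw [← Finset.erase_insert hxU, hT, Finset.erase_insert hxU']
    rw [h7]
  have k1 := key hxU hxU' hxx hT hv' h4
  have k2 := key hxU hxU' hxx hT hu' h5
  refine ⟨?_, k1⟩
  simp only [W, w]
  rw [if_pos]
  refine ⟨x', ?_, k1, k2⟩
  rintro rfl
  exact hxU' (mem_N.1 hz').1

/-- a preimage is determined by the removed vertex -/
lemma det {j : ℕ} {s s' : Σ _ : Finset α, Σ _ : α × α × α, α} (hs : s ∈ S H j)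
    (hs' : s' ∈ S H j) (hg : g s = g s') (hx : s.2.1.1 = s'.2.1.1) : s = s' := by
  by_contra hne
  obtain ⟨U, ⟨x, v, u⟩, z⟩ := s
  obtain ⟨U', ⟨x', v', u'⟩, z'⟩ := s'
  simp only [g, Sigma.mk.injEq, heq_eq_eq, Prod.mk.injEq] at hg
  obtain ⟨hT, ⟨rfl, rfl⟩, rfl⟩ := hg
  simp only at hx
  subst hx
  rw [mem_S, mem_Tri] at hs hs'
  apply hne
  have h7 : U = U' := by
    rw [← Finset.erase_insert (mem_F.1 hs.2.1.1.1).1, hT,
      Finset.erase_insert (mem_F.1 hs'.2.1.1.1).1]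
  rw [h7]

lemma fiber (j : ℕ) (r : Σ _ : Finset α, Σ _ : α × α, α) :
    ∑ s ∈ (S H j).filter (fun s => g s = r), W H s ≤ 2 := by
  by_cases h : ∃ s₀ ∈ (S H j).filter (fun s => g s = r),
      ∃ s₁ ∈ (S H j).filter (fun s => g s = r), s₀ ≠ s₁
  · obtain ⟨s₀, h0, s₁, h1, hne⟩ := h
    rw [Finset.mem_filter] at h0 h1
    have hW : ∀ s ∈ (S H j).filter (fun s => g s = r), W H s = 1 := by
      intro s hs
      rw [Finset.mem_filter] at hs
      by_cases h2 : s = s₀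
      · exact (two hs.1 h1.1 (hs.2.trans h1.2.symm) (by rw [h2]; exact hne)).1
      · exact (two hs.1 h0.1 (hs.2.trans h0.2.symm) h2).1
    have hsub : (S H j).filter (fun s => g s = r) ⊆ {s₀, s₁} := by
      intro s hs
      rw [Finset.mem_filter] at hs
      rw [Finset.mem_insert, Finset.mem_singleton]
      by_cases h2 : s = s₀
      · exact Or.inl h2
      · right
        have k1 := (two h0.1 hs.1 (h0.2.trans hs.2.symm) (fun h => h2 h.symm)).2
        have k2 := (two h0.1 h1.1 (h0.2.trans h1.2.symm) hne).2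
        rw [k1, Finset.singleton_inj] at k2
        exact det hs.1 h1.1 (hs.2.trans h1.2.symm) k2
    rw [Finset.sum_congr rfl hW, Finset.sum_const, smul_eq_mul, mul_one]
    exact (Finset.card_le_card hsub).trans Finset.card_le_two
  · have h1 : ((S H j).filter (fun s => g s = r)).card ≤ 1 := by
      rw [Finset.card_le_one]
      intro a ha b hb
      by_contra hab
      exact h ⟨a, ha, b, hb, hab⟩
    refine (Finset.sum_le_card_nsmul _ _ 2 (fun s _ => w_le _ _ _)).trans ?_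
    rw [smul_eq_mul]
    omega

end TRI

open TRI in
theorem tri_le (h3 : ∀ e ∈ H, e.card = 3) (j : ℕ) :
    5 * ∑ U ∈ I H j, (Tri H U).card ≤ 6 * ∑ T ∈ I H (j + 1), L H T (Bl H T) (Bl H T) := by
  have h1 : 5 * ∑ U ∈ I H j, (Tri H U).card ≤ 3 * ∑ U ∈ I H j, ∑ q ∈ Tri H U, ρ H U q := by
    rw [Finset.mul_sum, Finset.mul_sum]
    exact Finset.sum_le_sum fun U _ => part_c U
  have h2 : ∑ s ∈ S H j, W H s ≤ 2 * (R H j).card := by
    rw [← Finset.sum_fiberwise_of_maps_to (maps h3 j)]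
    refine (Finset.sum_le_sum fun r _ => fiber j r).trans ?_
    rw [Finset.sum_const, smul_eq_mul, mul_comm]
  rw [sum_S] at h1
  rw [card_R] at h2
  omega

end Pool.Agent.H708.TD
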