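import Pool.Agent.H708.TD.Basic
import Pool.Agent.H708.TD.Graph
import Pool.Agent.H708.TD.Tri
import Pool.Agent.H708.TD.Cherry
import Pool.Agent.H708.TD.Mass

set_option autoImplicit false

/-!
The level inequality.
-/

open Finset

namespace Pool.Agent.H708.TD

variable {α : Type*} [Fintype α] [DecidableEq α] {H : Finset (Finset α)}

lemma compl_eq (T : Finset α) : univ \ T = F H T ∪ Bl H T := by
  ext u
  rw [mem_sdiff, mem_union, mem_F, mem_Bl]
  simp only [mem_univ, true_and]
  tauto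

lemma disj_F_Bl (T : Finset α) : Disjoint (F H T) (Bl H T) := by
  rw [disjoint_left]
  intro u h1 h2
  exact (mem_Bl.1 h2).2 (mem_F.1 h1).2

lemma card_F_Bl (T : Finset α) : (F H T).card + (Bl H T).card + T.card = Fintype.card α := by
  rw [← card_union_of_disjoint (disj_F_Bl T), ← compl_eq]
  have := card_sdiff_add_card_eq_card (subset_univ T)
  rw [this]; rfl

/-- total colour mass -/
lemma L_total_le (h3 : ∀ e ∈ H, e.card = 3) (T : Finset α) :
    L H T (F H T) (F H T) + 2 * L H T (F H T) (Bl H T) + L H T (Bl H T) (Bl H T)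
      ≤ ∑ z ∈ T, 2 * (H.filter (fun e => z ∈ e)).card := by
  have hsymm : L H T (F H T) (Bl H T) = L H T (Bl H T) (F H T) := by
    unfold L
    rw [sum_comm]
    apply sum_congr rfl; intro v _
    apply sum_congr rfl; intro u _
    rw [N_comm]
  have h1 : L H T (F H T) (F H T) + 2 * L H T (F H T) (Bl H T) + L H T (Bl H T) (Bl H T)
      = ∑ v ∈ univ \ T, ∑ u ∈ univ \ T, (N H T v u).card := by
    rw [compl_eq (H := H) T, sum_union (disj_F_Bl T)]
    simp_rw [sum_union (disj_F_Bl (H := H) T)]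
    rw [sum_add_distrib, sum_add_distrib]
    unfold L at hsymm ⊢
    omega
  rw [h1]
  have h2 : ∑ v ∈ univ \ T, ∑ u ∈ univ \ T, (N H T v u).card
      ≤ ∑ v : α, ∑ u : α, (N H T v u).card := by
    refine (sum_le_sum_of_subset (subset_univ _)).trans (sum_le_sum fun v _ => ?_)
    exact sum_le_sum_of_subset (subset_univ _)
  refine h2.trans ?_
  have h4 : ∀ v u : α, (N H T v u).card = ∑ z ∈ T, if ({v, u, z} : Finset α) ∈ H then 1 else 0 := by
    intro v u
    unfold N
    rw [card_filter]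
  simp_rw [h4]
  have h5 : ∑ v : α, ∑ u : α, ∑ z ∈ T, (if ({v, u, z} : Finset α) ∈ H then 1 else 0)
      = ∑ z ∈ T, ((univ ×ˢ univ : Finset (α × α)).filter
          (fun q => ({q.1, q.2, z} : Finset α) ∈ H)).card := by
    simp_rw [card_filter, sum_product]
    rw [sum_comm' (s := univ) (t := fun _ => univ) (s' := fun _ => univ) (t' := univ) (by simp)]
    rw [sum_comm]
    conv_lhs => rw [sum_comm]
    rw [show (∑ y : α, ∑ x : α, ∑ z ∈ T, if ({x, y, z} : Finset α) ∈ H then 1 else 0)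
      = ∑ x : α, ∑ y : α, ∑ z ∈ T, if ({x, y, z} : Finset α) ∈ H then 1 else 0 from sum_comm]
    rw [show (∑ x : α, ∑ y : α, ∑ z ∈ T, if ({x, y, z} : Finset α) ∈ H then 1 else 0)
      = ∑ x : α, ∑ z ∈ T, ∑ y : α, if ({x, y, z} : Finset α) ∈ H then 1 else 0 from
        sum_congr rfl fun x _ => sum_comm]
    rw [sum_comm]
  rw [h5]
  apply sum_le_sum
  intro z _
  have h6 : ((univ ×ˢ univ : Finset (α × α)).filter (fun q => ({q.1, q.2, z} : Finset α) ∈ H))
      ⊆ (H.filter (fun e => z ∈ e)).biUnion (fun e => (e.erase z).offDiag) := by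
    rintro ⟨v, u⟩ hq
    rw [mem_filter] at hq
    simp only at hq
    rw [mem_biUnion]
    have hc := h3 _ hq.2
    have hvu : v ≠ u := by
      rintro rfl
      have : ({v, v, z} : Finset α) = {v, z} := by simp
      rw [this] at hc
      have := card_le_two (a := v) (b := z); omega
    have hvz : v ≠ z := by
      rintro rfl
      have : ({v, u, v} : Finset α) = {v, u} := by
        ext y; simp only [mem_insert, mem_singleton]; tauto
      rw [this] at hc
      have := card_le_two (a := v) (b := u); omega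
    have huz : u ≠ z := by
      rintro rfl
      have : ({v, u, u} : Finset α) = {v, u} := by simp
      rw [this] at hc
      have := card_le_two (a := v) (b := u); omega
    refine ⟨{v, u, z}, mem_filter.2 ⟨hq.2, by simp⟩, ?_⟩
    rw [mem_offDiag, mem_erase, mem_erase]
    simp [hvu, hvz, huz]
  refine (card_le_card h6).trans (card_biUnion_le.trans ?_)
  have h7 : ∀ e ∈ H.filter (fun e => z ∈ e), ((e.erase z).offDiag).card = 2 := by
    intro e he
    rw [mem_filter] at he
    rw [offDiag_card, card_erase_of_mem he.2, h3 e he.1]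
  rw [sum_congr rfl h7, sum_const, smul_eq_mul, mul_comm]

lemma sum_bt (h3 : ∀ e ∈ H, e.card = 3) {T : Finset α} (hT : Ind H T) :
    ∑ x ∈ T, (B H T x).card = ∑ u ∈ univ \ T, bt T (Gr H T u) := by
  have h1 : ∀ x ∈ T, (B H T x).card = ∑ u ∈ univ \ T,
      if ((Gr H T u).Nonempty ∧ ∀ p ∈ Gr H T u, x ∈ p) then 1 else 0 := by
    intro x _
    rw [← card_filter]
    congr 1
    ext u
    rw [mem_B, mem_filter, mem_sdiff]
    simp
  rw [sum_congr rfl h1, sum_comm]
  apply sum_congr rfl
  intro u _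
  unfold bt
  rw [← card_filter]
  split_ifs with h
  · congr 1
    ext x
    simp [h]
  · rw [card_eq_zero, filter_eq_empty_iff]
    intro x _ h'
    exact h h'.1

lemma sum_blocked (h3 : ∀ e ∈ H, e.card = 3) {T : Finset α} (hT : Ind H T) :
    ∑ u ∈ univ \ T, (if (Gr H T u).Nonempty then 1 else 0) = (Bl H T).card := by
  rw [← card_filter]
  congr 1
  ext u
  rw [mem_filter, mem_Bl_iff h3 hT, mem_sdiff]
  simp

/-- **The level inequality.** -/
theorem level (h3 : ∀ e ∈ H, e.card = 3) {D : ℕ} (hD : ∀ z, (H.filter (fun e => z ∈ e)).card ≤ D)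
    (j : ℕ) :
    5 * ∑ T ∈ I H (j + 1), ∑ x ∈ T, (B H T x).card ^ 2
      + 8 * ∑ T ∈ I H (j + 2), (Bl H T).card
      + 2 * ∑ T ∈ I H (j + 2), ∑ x ∈ T, (B H T x).card
      ≤ 12 * D * (j + 1) * (I H (j + 1)).card
        + 5 * ∑ T ∈ I H (j + 1), ∑ x ∈ T, (B H T x).card := by
  have hmass := mass_eq h3 (j + 1)
  have htri := tri_le h3 j
  have hch := ch_le h3 j
  have hsq := sum_B_sq h3 j
  -- graph inequality summed
  have hg : 5 * ∑ T ∈ I H (j + 2), ∑ u ∈ univ \ T, cc T (Gr H T u)
      + 8 * ∑ T ∈ I H (j + 2), (Bl H T).card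
      + 2 * ∑ T ∈ I H (j + 2), ∑ x ∈ T, (B H T x).card
      ≤ 6 * ∑ T ∈ I H (j + 2), ∑ u ∈ univ \ T, wt T (Gr H T u) := by
    rw [mul_sum, mul_sum, mul_sum, mul_sum, ← sum_add_distrib, ← sum_add_distrib]
    apply sum_le_sum
    intro T hT
    have hT' := (mem_I.1 hT).2
    rw [← sum_blocked h3 hT', sum_bt h3 hT', mul_sum, mul_sum, mul_sum, mul_sum,
      ← sum_add_distrib, ← sum_add_distrib]
    apply sum_le_sum
    intro u _
    exact graph_ineq (filter_subset _ _)
  -- total mass
  have htot : ∑ T ∈ I H (j + 1), (L H T (F H T) (F H T) + 2 * L H T (F H T) (Bl H T))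
      + ∑ T ∈ I H (j + 1), L H T (Bl H T) (Bl H T) ≤ 2 * D * (j + 1) * (I H (j + 1)).card := by
    rw [← sum_add_distrib]
    have h1 : ∀ T ∈ I H (j + 1), L H T (F H T) (F H T) + 2 * L H T (F H T) (Bl H T)
        + L H T (Bl H T) (Bl H T) ≤ 2 * D * (j + 1) := by
      intro T hT
      refine (L_total_le h3 T).trans ?_
      have : ∑ z ∈ T, 2 * (H.filter (fun e => z ∈ e)).card ≤ ∑ _z ∈ T, 2 * D :=
        sum_le_sum fun z _ => Nat.mul_le_mul_left 2 (hD z)
      refine this.trans (le_of_eq ?_)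
      rw [sum_const, smul_eq_mul, (mem_I.1 hT).1]
      ring
    refine (sum_le_sum h1).trans (le_of_eq ?_)
    rw [sum_const, smul_eq_mul]
    ring
  rw [sum_add_distrib] at hsq
  have e2 : j + 1 + 1 = j + 2 := rfl
  rw [e2] at hmass
  rw [hmass] at htot
  rw [hsq]
  nlinarith

end Pool.Agent.H708.TD
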