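import Pool.Agent.H708.TD.Core
import Pool.Agent.H708.TD.Analytic
import Pool.Agent.H708.TD.Final

set_option autoImplicit false

/-!
The covering density of `K_m^3` exceeds `(5/2)/(m-1)^2`.
-/

open Finset

namespace Pool.Agent.H708.TD

theorem core (n : ℕ) (F : Finset (Finset (Fin n))) (h3 : ∀ e ∈ F, e.card = 3) (h : ℝ)
    (h0 : 0 < h) (h1 : h ≤ 1 / 100000) (hn : 100000 ≤ h * n)
    (hdeg : ∀ z : Fin n, 2 * (((F.filter (fun e => z ∈ e)).card : ℕ) : ℝ) ≤ (h * n) ^ 2)
    (M : ℕ) (hM : ∀ S : Finset (Fin n), S.card = M → ∃ e ∈ F, e ⊆ S) :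
    2501 / 1000 ≤ (((M : ℝ) - 1) * h) ^ 2 := by
  classical
  have hnpos : 0 < n := by
    rcases Nat.eq_zero_or_pos n with h' | h'
    · rw [h'] at hn; norm_num at hn
    · exact h'
  have hcard : Fintype.card (Fin n) = n := by simp
  have hnc : 0 < Fintype.card (Fin n) := by rw [hcard]; exact hnpos
  have hnr : (0 : ℝ) < (n : ℝ) := by exact_mod_cast hnpos
  -- the maximal degree
  set D : ℕ := univ.sup (fun z : Fin n => (F.filter (fun e => z ∈ e)).card) with hD
  have hD1 : ∀ z, (F.filter (fun e => z ∈ e)).card ≤ D := fun z =>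
    le_sup (f := fun z : Fin n => (F.filter (fun e => z ∈ e)).card) (mem_univ z)
  have hD2 : 2 * (D : ℝ) ≤ (h * Fintype.card (Fin n)) ^ 2 := by
    have hne : (univ : Finset (Fin n)).Nonempty := ⟨⟨0, hnpos⟩, mem_univ _⟩
    obtain ⟨z, _, hz⟩ := exists_mem_eq_sup univ hne
      (fun z : Fin n => (F.filter (fun e => z ∈ e)).card)
    rw [hD, hz, hcard]
    exact hdeg z
  -- the independence number
  have hex : ∃ j, I F j = ∅ := ⟨M, by
    rw [eq_empty_iff_forall_notMem]
    intro T hT
    rw [mem_I] at hT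
    obtain ⟨e, he, heT⟩ := hM T hT.1
    exact hT.2 e he heT⟩
  set K := Nat.find hex with hK
  have hKM : K ≤ M := Nat.find_min' hex (by
    rw [eq_empty_iff_forall_notMem]
    intro T hT
    rw [mem_I] at hT
    obtain ⟨e, he, heT⟩ := hM T hT.1
    exact hT.2 e he heT)
  have hKe : I F K = ∅ := Nat.find_spec hex
  have hne : ∀ j, j < K → 0 < (I F j).card := by
    intro j hj
    rw [card_pos, nonempty_iff_ne_empty]
    exact Nat.find_min hex hj
  have h0K : 0 < K := by
    rcases Nat.eq_zero_or_pos K with h' | h'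
    · exfalso
      have : (∅ : Finset (Fin n)) ∈ I F 0 := by
        rw [mem_I]
        refine ⟨rfl, fun e he hs => ?_⟩
        have := h3 e he
        rw [subset_empty.1 hs] at this
        simp at this
      rw [← h', hKe] at this
      simp at this
    · exact h'
  have h1K : 1 < K := by
    rcases Nat.lt_or_ge 1 K with h' | h'
    · exact h'
    · exfalso
      have hK1 : K = 1 := by omega
      have : ({⟨0, hnpos⟩} : Finset (Fin n)) ∈ I F 1 := by
        rw [mem_I]
        refine ⟨card_singleton _, fun e he hs => ?_⟩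
        have := card_le_card hs
        rw [h3 e he] at this
        simp at this
      rw [← hK1, hKe] at this
      simp at this
  obtain ⟨J, hJ⟩ : ∃ J, K = J + 1 := ⟨K - 1, by omega⟩
  have hJ1 : 1 ≤ J := by omega
  have hκ : (1 : ℝ) / (Fintype.card (Fin n) : ℝ) = 1 / n := by rw [hcard]
  have key : 2501 / 1000 ≤ ((J : ℝ) * h) ^ 2 := by
    apply analytic (κ := 1 / (Fintype.card (Fin n) : ℝ)) (y := avY F) (b := avB F) h0 h1
      (by positivity) _ hJ1 _ _ avY_nonneg _ avB_nonneg _ _ _ _
    · rw [hκ, div_le_iff₀ hnr]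
      have : h / 100000 * n = h * n / 100000 := by ring
      rw [this]
      linarith
    · -- y 1 = 0
      unfold avY
      have : ∑ T ∈ I F 1, ((Bl F T).card : ℝ) = 0 := by
        apply sum_eq_zero
        intro T hT
        have hT' := mem_I.1 hT
        have : Bl F T = ∅ := by
          rw [eq_empty_iff_forall_notMem]
          intro u hu
          rw [mem_Bl_iff h3 hT'.2] at hu
          obtain ⟨p, hp⟩ := hu.2
          rw [mem_Gr] at hp
          have := card_le_card hp.1
          omega
        rw [this]; simp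
      rw [this]; simp
    · -- y J
      have hJ0 := hne J (by omega)
      have hr := ratio (H := F) hnc hJ0
      have hz : (I F (J + 1)).card = 0 := by rw [← hJ, hKe, card_empty]
      rw [hz] at hr
      have hJ0' : (0 : ℝ) < (I F J).card := by exact_mod_cast hJ0
      have hc' : (0 : ℝ) < Fintype.card (Fin n) := by exact_mod_cast hnc
      simp only [Nat.cast_zero, mul_zero] at hr
      have h5 := mul_eq_zero.1 hr.symm
      rcases h5 with h5 | h5
      · exact absurd h5 hJ0'.ne'
      · rcases mul_eq_zero.1 h5 with h6 | h6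
        · exact absurd h6 hc'.ne'
        · linarith
    · intro j _ hj
      exact avY_le hnc (hne j (by omega))
    · intro j _ hj
      exact avB_le h3 hnc (hne j (by omega))
    · intro j _ hj
      exact chain h3 hnc (hne j (by omega)) (hne (j + 1) (by omega))
    · intro j hj1 hj
      exact level_av h3 hD1 hD2 hj1 hnc (hne j (by omega))
    · have h7 := level_av h3 hD1 hD2 hJ1 hnc (hne J (by omega))
      have hz : I F (J + 1) = ∅ := by rw [← hJ, hKe]
      have hy : avY F (J + 1) = 0 := by unfold avY; rw [hz]; simp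
      have hb : avB F (J + 1) = 0 := by unfold avB; rw [hz]; simp
      rw [hy, hb] at h7
      linarith
  refine key.trans ?_
  have hJM : (J : ℝ) ≤ (M : ℝ) - 1 := by
    have : J + 1 ≤ M := by omega
    have : (J : ℝ) + 1 ≤ M := by exact_mod_cast this
    linarith
  have : (J : ℝ) * h ≤ ((M : ℝ) - 1) * h := mul_le_mul_of_nonneg_right hJM h0.le
  exact pow_le_pow_left₀ (by positivity) this 2

/-- **The covering density of `K_m^3` exceeds `(5/2)/(m-1)^2`.** -/
theorem d_gt {m : ℕ} (hm : 3 ≤ m) : 5 / 2 < ((m : ℝ) - 1) ^ 2 * H121R2.Turan.d m :=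
  d_gt_of_core core hm

/-- Large independent sets in 3-uniform families with bounded degrees. -/
theorem exists_indep (n D : ℕ) (H : Finset (Finset (Fin n))) (h3 : ∀ e ∈ H, e.card = 3)
    (hdeg : ∀ z : Fin n, (H.filter (fun e => z ∈ e)).card ≤ D) (hD : 5 * 10 ^ 9 ≤ D)
    (hn : 2 * 10 ^ 10 * D ≤ n ^ 2) :
    ∃ S : Finset (Fin n), (∀ e ∈ H, ¬ e ⊆ S) ∧ 5 * n ^ 2 ≤ 4 * D * S.card ^ 2 := by
  classical
  obtain ⟨S, hS, hmax⟩ := exists_max_image (univ.filter (fun T : Finset (Fin n) => Ind H T))
    (fun T => T.card) ⟨∅, by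
      rw [mem_filter]
      refine ⟨mem_univ _, fun e he hs => ?_⟩
      have := h3 e he
      rw [subset_empty.1 hs] at this
      simp at this⟩
  rw [mem_filter] at hS
  refine ⟨S, hS.2, ?_⟩
  have hDr : (5 * 10 ^ 9 : ℝ) ≤ D := by exact_mod_cast hD
  have hnr : (2 * 10 ^ 10 * (D : ℝ)) ≤ (n : ℝ) ^ 2 := by exact_mod_cast hn
  have hn0 : (0 : ℝ) < n := by
    rcases Nat.eq_zero_or_pos n with h' | h'
    · rw [h'] at hnr
      norm_num at hnr
      linarith
    · exact_mod_cast h'
  set r : ℝ := Real.sqrt (2 * D) with hr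
  have hr2 : r ^ 2 = 2 * D := Real.sq_sqrt (by linarith)
  have hr0 : 0 < r := Real.sqrt_pos.2 (by linarith)
  have hr1 : 100000 ≤ r := by
    rw [hr]
    apply Real.le_sqrt_of_sq_le
    norm_num
    linarith
  have hrn : r * 100000 ≤ n := by
    have h1 : (r * 100000) ^ 2 ≤ (n : ℝ) ^ 2 := by
      rw [mul_pow, hr2]
      refine le_trans (le_of_eq ?_) hnr
      ring
    exact le_of_sq_le_sq h1 hn0.le
  have hcore := core n H h3 (r / n) (by positivity)
    (by rw [div_le_iff₀ hn0]; linarith)
    (by rw [div_mul_cancel₀ _ hn0.ne']; exact hr1)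
    (by
      intro z
      rw [div_mul_cancel₀ _ hn0.ne', hr2]
      have : ((H.filter (fun e => z ∈ e)).card : ℝ) ≤ D := by exact_mod_cast hdeg z
      linarith)
    (S.card + 1) (by
      intro T hT
      by_contra hcon
      push Not at hcon
      have := hmax T (by rw [mem_filter]; exact ⟨mem_univ _, hcon⟩)
      omega)
  have h2 : (((S.card + 1 : ℕ) : ℝ) - 1) * (r / n) = S.card * r / n := by
    push_cast; ring
  rw [h2, div_pow, mul_pow, hr2, le_div_iff₀ (by positivity)] at hcore
  have h4 : 5 * (n : ℝ) ^ 2 ≤ 4 * D * (S.card : ℝ) ^ 2 := by nlinarith [sq_nonneg (n : ℝ)]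
  exact_mod_cast h4

end Pool.Agent.H708.TD
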